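import Pool.Agent.Lib.MP_42948a_nt.PO.Defs
import Pool.Agent.Lib.MP_42948a_nt.BU.Main

/-!
# Burgess' bound with the sieve weights in a general window (job B1)

COPY `FR/B1.lean` (theorem `burgess_rho2`, complete proof there, the lower end of the window is `Ax κ d`) and adapt it: the lower end is now ANY natural number `A ≥ d^(29/100)`, `P ≤ z^K ≤ d^(K c) ≤ d^(1/100)`,
`A/P ≥ d^(28/100) - 1 ≥ d^(1/4 + 1/100)` for large `d` (`A < P (A/P + 1)`), Burgess' theorem `BU.burgess_main` with `κ = 1/100`. Copy the private lemmas (rename them).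
-/

namespace Pool.Agent.Lib.MP_42948a_nt.PO

open Finset Pool.Agent.Lib.MP_42948a_nt.OA Pool.Agent.Lib.MP_42948a_nt.AC Pool.Agent.Lib.MP_42948a_nt.TQ
  Pool.Agent.Lib.MP_42948a_nt.PS Pool.Agent.Lib.MP_42948a_nt.EK Pool.Agent.Lib.MP_42948a_nt.MV

private theorem B1_prime {z : ℕ} {T : Finset ℕ} (hT : T ⊆ PP z) : ∀ p ∈ T, p.Prime := by
  intro p hp
  have h := hT hp
  unfold PP at h
  rw [mem_filter] at h
  exact h.2

private theorem B1_harm (z K : ℕ) :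
    ∑ T ∈ TT z K, 1 / ((∏ p ∈ T, p : ℕ) : ℝ) ≤ 1 + Real.log ((z ^ K : ℕ) : ℝ) := by
  classical
  have hmem : ∀ T ∈ TT z K, (∀ p ∈ T, p.Prime) ∧ ∏ p ∈ T, p ≤ z ^ K := by
    intro T hT
    unfold TT at hT
    rw [mem_filter, mem_powerset] at hT
    exact ⟨B1_prime hT.1, hT.2⟩
  have hinj : Set.InjOn (fun T : Finset ℕ => ∏ p ∈ T, p) (TT z K : Set (Finset ℕ)) := by
    intro T hT T' hT' h
    have h1 := Nat.primeFactors_prod (hmem T hT).1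
    have h2 := Nat.primeFactors_prod (hmem T' hT').1
    change ∏ p ∈ T, p = ∏ p ∈ T', p at h
    rw [← h1, ← h2, h]
  rw [← Finset.sum_image (f := fun n : ℕ => 1 / (n : ℝ)) hinj]
  have h3 : (TT z K).image (fun T : Finset ℕ => ∏ p ∈ T, p) ⊆ Icc 1 (z ^ K) := by
    intro n hn
    rw [mem_image] at hn
    obtain ⟨T, hT, rfl⟩ := hn
    rw [mem_Icc]
    exact ⟨Finset.prod_pos fun p hp => ((hmem T hT).1 p hp).pos, (hmem T hT).2⟩
  refine (sum_le_sum_of_subset_of_nonneg h3 fun n _ _ => by positivity).trans ?_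
  have h4 := harmonic_le_one_add_log (z ^ K)
  rw [harmonic_eq_sum_Icc] at h4
  push_cast at h4
  refine le_trans (le_of_eq ?_) (h4.trans (le_of_eq ?_))
  · exact sum_congr rfl fun n _ => one_div _
  · push_cast
    rfl

private theorem B1_event (s : ℝ) (hs : 0 < s) (M : ℝ) : ∃ d0 : ℕ, ∀ d : ℕ, d0 ≤ d → M ≤ (d : ℝ) ^ s := by
  have h2 : Filter.Tendsto (fun d : ℕ => (d : ℝ) ^ s) Filter.atTop Filter.atTop :=
    (tendsto_rpow_atTop hs).comp tendsto_natCast_atTop_atTop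
  exact Filter.eventually_atTop.1 (h2.eventually_ge_atTop M)

private theorem B1_small (s : ℝ) (hs : 0 < s) (ε : ℝ) (hε : 0 < ε) :
    ∃ d0 : ℕ, ∀ d : ℕ, d0 ≤ d → (1 + Real.log d) * ((2 + Real.log d) * (d : ℝ) ^ (-s)) ≤ ε := by
  have hs2 : 0 < s / 2 := by positivity
  have h1 : Filter.Tendsto (fun x : ℝ => Real.log x / x ^ (s / 2)) Filter.atTop (nhds 0) :=
    (isLittleO_log_rpow_atTop hs2).tendsto_div_nhds_zero
  have h2 : Filter.Tendsto (fun x : ℝ => x ^ (-(s / 2))) Filter.atTop (nhds 0) := tendsto_rpow_neg_atTop hs2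
  have h3 : Filter.Tendsto (fun x : ℝ => (1 * x ^ (-(s / 2)) + Real.log x / x ^ (s / 2)) *
      (2 * x ^ (-(s / 2)) + Real.log x / x ^ (s / 2))) Filter.atTop (nhds ((1 * 0 + 0) * (2 * 0 + 0))) :=
    ((h2.const_mul 1).add h1).mul ((h2.const_mul 2).add h1)
  have h4 : ((1 : ℝ) * 0 + 0) * (2 * 0 + 0) = 0 := by norm_num
  rw [h4] at h3
  have h5 : ∀ᶠ x : ℝ in Filter.atTop, (1 * x ^ (-(s / 2)) + Real.log x / x ^ (s / 2)) *
      (2 * x ^ (-(s / 2)) + Real.log x / x ^ (s / 2)) ≤ ε :=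
    h3.eventually_le_const hε
  have h6 := tendsto_natCast_atTop_atTop (R := ℝ) |>.eventually (h5.and (Filter.eventually_gt_atTop 0))
  obtain ⟨d0, hd0⟩ := Filter.eventually_atTop.1 h6
  refine ⟨d0, fun d hd => ?_⟩
  obtain ⟨h7, h8⟩ := hd0 d hd
  refine le_trans (le_of_eq ?_) h7
  have h9 : (d : ℝ) ^ (-s) = (d : ℝ) ^ (-(s / 2)) * (d : ℝ) ^ (-(s / 2)) := by
    rw [← Real.rpow_add h8]
    congr 1
    ring
  have h10 : Real.log (d : ℝ) / (d : ℝ) ^ (s / 2) = Real.log d * (d : ℝ) ^ (-(s / 2)) := by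
    rw [Real.rpow_neg h8.le, div_eq_mul_inv]
  rw [h9, h10]
  ring

private theorem B1_one {d : ℕ} [NeZero d] (χ : DirichletCharacter ℂ d) (T : Finset ℕ) (hT : ∀ p ∈ T, p.Prime)
    (A B : ℕ) (hAB : A ≤ B) (δ L : ℝ) (hδ : 0 ≤ δ) (hA : 1 ≤ A / (∏ p ∈ T, p))
    (h : ∀ N : ℕ, A / (∏ p ∈ T, p) ≤ N → ‖∑ n ∈ Icc 1 N, χ (n : ZMod d)‖ ≤ (N : ℝ) * δ)
    (hL : 2 + Real.log (((B / (∏ p ∈ T, p) : ℕ) : ℝ) / ((A / (∏ p ∈ T, p) : ℕ) : ℝ)) ≤ L) :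
    ‖∑ n ∈ (Ioc A B).filter (fun n : ℕ => ∀ p ∈ T, p ∣ n), χ (n : ZMod d) / (n : ℂ)‖ ≤
      1 / ((∏ p ∈ T, p : ℕ) : ℝ) * (δ * L) := by
  obtain ⟨P, hP⟩ : ∃ P : ℕ, P = ∏ p ∈ T, p := ⟨_, rfl⟩
  have hP0 : 0 < P := by
    rw [hP]
    exact Finset.prod_pos fun p hp => (hT p hp).pos
  have e2 : (Ioc A B).filter (fun n : ℕ => ∀ p ∈ T, p ∣ n) = (Ioc (A / P) (B / P)).image (fun m => P * m) := by
    ext n
    rw [mem_filter, mem_image, mem_Ioc, EG_dvd_iff T hT, ← hP]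
    constructor
    · rintro ⟨⟨h1, h2⟩, m, rfl⟩
      refine ⟨m, ?_, rfl⟩
      rw [mem_Ioc, Nat.div_lt_iff_lt_mul hP0, Nat.le_div_iff_mul_le hP0, mul_comm m P]
      exact ⟨h1, h2⟩
    · rintro ⟨m, hm, rfl⟩
      rw [mem_Ioc, Nat.div_lt_iff_lt_mul hP0, Nat.le_div_iff_mul_le hP0, mul_comm m P] at hm
      exact ⟨hm, Dvd.intro _ rfl⟩
  rw [← hP] at hA h hL ⊢
  rw [e2, Finset.sum_image (fun a _ b _ h => Nat.eq_of_mul_eq_mul_left hP0 h)]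
  have e3 : ∑ m ∈ Ioc (A / P) (B / P), χ ((P * m : ℕ) : ZMod d) / ((P * m : ℕ) : ℂ) =
      χ (P : ZMod d) / (P : ℂ) * ∑ m ∈ Ioc (A / P) (B / P), χ (m : ZMod d) / (m : ℂ) := by
    rw [Finset.mul_sum]
    refine sum_congr rfl fun m _ => ?_
    rw [Nat.cast_mul, Nat.cast_mul, map_mul, mul_div_mul_comm]
  rw [e3, norm_mul, norm_div, Complex.norm_natCast]
  have h1 := log_sum_bound (fun n => χ (n : ZMod d)) δ hδ (A / P) (B / P) hA (Nat.div_le_div_right hAB) h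
  have h2 : ‖χ (P : ZMod d)‖ / (P : ℝ) ≤ 1 / (P : ℝ) :=
    div_le_div_of_nonneg_right (DirichletCharacter.norm_le_one χ _) (Nat.cast_nonneg P)
  exact mul_le_mul h2 (h1.trans (mul_le_mul_of_nonneg_left hL hδ)) (norm_nonneg _) (by positivity)

theorem burgess_rho3 (m : ℕ) (hm : 1 ≤ m) (K : ℕ) (c : ℝ) (hc : 0 < c)
    (hKc : (K : ℝ) * c ≤ 1 / 100) (ε : ℝ) (hε : 0 < ε) : ∃ d0 : ℕ, ∀ d : ℕ, d0 ≤ d → ∀ [NeZero d],
    ∀ (τ : ℝ) (u l : Finset ℕ → ℝ), Fund τ K (zz c d) u l → ∀ χ : DirichletCharacter ℂ d, χ ≠ 1 → χ ^ m = 1 →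
      ∀ A B : ℕ, (d : ℝ) ^ (29 / 100 : ℝ) ≤ A → A ≤ B → B ≤ d →
        ‖∑ n ∈ Ioc A B, ((rho (zz c d) u n / n : ℝ) : ℂ) * χ (n : ZMod d)‖ ≤ ε := by
  obtain ⟨θ, hθ, d1, h1⟩ := Pool.Agent.Lib.MP_42948a_nt.BU.burgess_main m hm (1 / 100) (by norm_num)
  obtain ⟨d2, h2⟩ := B1_event (1 / 100) (by norm_num) 3
  obtain ⟨d3, h3⟩ := B1_small θ hθ ε hε
  refine ⟨max 2 (max d1 (max d2 d3)), fun d hd _ τ u l hF χ hχ hχm A B hA29 hAB hBd0 => ?_⟩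
  have hd2 : 2 ≤ d := (le_max_left _ _).trans hd
  have hdd := (le_max_right 2 _).trans hd
  have g1 := h1 d ((le_max_left _ _).trans hdd) χ hχ hχm
  have g2 := h2 d ((le_max_left _ _).trans ((le_max_right _ _).trans hdd))
  have g3 := h3 d ((le_max_right _ _).trans ((le_max_right _ _).trans hdd))
  have hd1 : (1 : ℝ) ≤ d := by exact_mod_cast (by omega : 1 ≤ d)
  have hd0 : (0 : ℝ) < d := by linarith
  have hlog : 0 ≤ Real.log d := Real.log_nonneg hd1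
  have hzK : (((zz c d) ^ K : ℕ) : ℝ) ≤ (d : ℝ) ^ (1 / 100 : ℝ) := by
    have e1 : ((zz c d : ℕ) : ℝ) ≤ (d : ℝ) ^ c := Nat.floor_le (by positivity)
    rw [Nat.cast_pow]
    calc ((zz c d : ℕ) : ℝ) ^ K ≤ ((d : ℝ) ^ c) ^ K := pow_le_pow_left₀ (Nat.cast_nonneg _) e1 K
      _ = (d : ℝ) ^ (c * K) := by rw [← Real.rpow_natCast, ← Real.rpow_mul hd0.le]
      _ ≤ (d : ℝ) ^ (1 / 100 : ℝ) := Real.rpow_le_rpow_of_exponent_le hd1 (by linarith)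
  have hBd : ((B : ℕ) : ℝ) ≤ d := by exact_mod_cast hBd0
  have hW : (1 : ℝ) ≤ (d : ℝ) ^ (1 / 4 + 1 / 100 : ℝ) := Real.one_le_rpow hd1 (by norm_num)
  have hdiv : ∀ P : ℕ, 0 < P → P ≤ (zz c d) ^ K → (d : ℝ) ^ (1 / 4 + 1 / 100 : ℝ) ≤ ((A / P : ℕ) : ℝ) := by
    intro P hP hPz
    have hPR : (P : ℝ) ≤ (d : ℝ) ^ (1 / 100 : ℝ) := le_trans (by exact_mod_cast hPz) hzK
    have hY : (1 : ℝ) ≤ (d : ℝ) ^ (1 / 100 : ℝ) := Real.one_le_rpow hd1 (by norm_num)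
    have e1 : (d : ℝ) ^ (29 / 100 : ℝ) = (d : ℝ) ^ (1 / 4 + 1 / 100 : ℝ) * (d : ℝ) ^ (1 / 100 : ℝ) *
        (d : ℝ) ^ (1 / 100 : ℝ) * (d : ℝ) ^ (1 / 100 : ℝ) := by
      rw [← Real.rpow_add hd0, ← Real.rpow_add hd0, ← Real.rpow_add hd0]
      congr 1
      norm_num
    have e3 : A < P * (A / P + 1) := Nat.lt_mul_div_succ _ hP
    have e4 : ((A : ℕ) : ℝ) < (P : ℝ) * (((A / P : ℕ) : ℝ) + 1) := by exact_mod_cast e3
    have hq0 : (0 : ℝ) ≤ ((A / P : ℕ) : ℝ) := Nat.cast_nonneg _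
    have e5 : (P : ℝ) * (((A / P : ℕ) : ℝ) + 1) ≤ (d : ℝ) ^ (1 / 100 : ℝ) * (((A / P : ℕ) : ℝ) + 1) :=
      mul_le_mul_of_nonneg_right hPR (by positivity)
    have hZ0 : (0 : ℝ) ≤ (d : ℝ) ^ (1 / 4 + 1 / 100 : ℝ) * (d : ℝ) ^ (1 / 100 : ℝ) := by positivity
    have e6 : (d : ℝ) ^ (1 / 4 + 1 / 100 : ℝ) * (d : ℝ) ^ (1 / 100 : ℝ) * (d : ℝ) ^ (1 / 100 : ℝ) <
        (((A / P : ℕ) : ℝ) + 1) * (d : ℝ) ^ (1 / 100 : ℝ) := by
      have e61 := mul_le_mul_of_nonneg_left hY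
        (by positivity : (0 : ℝ) ≤ (d : ℝ) ^ (1 / 4 + 1 / 100 : ℝ) * (d : ℝ) ^ (1 / 100 : ℝ) *
        (d : ℝ) ^ (1 / 100 : ℝ))
      rw [mul_one, ← e1] at e61
      rw [mul_comm (((A / P : ℕ) : ℝ) + 1)]
      linarith
    have e7 := lt_of_mul_lt_mul_right e6 (by positivity)
    have e8 : (d : ℝ) ^ (1 / 4 + 1 / 100 : ℝ) * 3 ≤ (d : ℝ) ^ (1 / 4 + 1 / 100 : ℝ) * (d : ℝ) ^ (1 / 100 : ℝ) :=
      mul_le_mul_of_nonneg_left g2 (by positivity)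
    linarith
  have e0 : ∀ n ∈ Ioc (A) (B), ((rho (zz c d) u n / n : ℝ) : ℂ) * χ (n : ZMod d) =
      ∑ T ∈ (PP (zz c d)).powerset, (u T : ℂ) * (if ∀ p ∈ T, p ∣ n then χ (n : ZMod d) / (n : ℂ) else 0) := by
    intro n _
    unfold rho
    push_cast
    rw [Finset.sum_div, Finset.sum_mul]
    apply Finset.sum_congr rfl
    intro T _
    rw [mul_div_assoc, mul_assoc]
    congr 1
    split_ifs
    · rw [Complex.ofReal_one]
      ring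
    · rw [Complex.ofReal_zero]
      ring
  rw [Finset.sum_congr rfl e0, Finset.sum_comm]
  have e1 : ∑ T ∈ (PP (zz c d)).powerset, ∑ n ∈ Ioc (A) (B),
        (u T : ℂ) * (if ∀ p ∈ T, p ∣ n then χ (n : ZMod d) / (n : ℂ) else 0) =
      ∑ T ∈ TT (zz c d) K, ∑ n ∈ Ioc (A) (B),
        (u T : ℂ) * (if ∀ p ∈ T, p ∣ n then χ (n : ZMod d) / (n : ℂ) else 0) := by
    unfold TT
    symm
    apply Finset.sum_filter_of_ne
    intro T hT hne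
    rw [mem_powerset] at hT
    refine hF.u_sup T hT (fun h => hne ?_)
    rw [h]
    simp
  rw [e1]
  refine (norm_sum_le _ _).trans ?_
  have hθ0 : (0 : ℝ) ≤ (d : ℝ) ^ (-θ) := by positivity
  have hterm : ∀ T ∈ TT (zz c d) K, ‖∑ n ∈ Ioc (A) (B),
        (u T : ℂ) * (if ∀ p ∈ T, p ∣ n then χ (n : ZMod d) / (n : ℂ) else 0)‖ ≤
      1 / ((∏ p ∈ T, p : ℕ) : ℝ) * ((d : ℝ) ^ (-θ) * (2 + Real.log d)) := by
    intro T hT
    unfold TT at hT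
    rw [mem_filter, mem_powerset] at hT
    have hpr := B1_prime hT.1
    have hP0 : 0 < ∏ p ∈ T, p := Finset.prod_pos (fun p hp => (hpr p hp).pos)
    have hq := hdiv _ hP0 hT.2
    have hq1 : 1 ≤ A / (∏ p ∈ T, p) := by exact_mod_cast hW.trans hq
    rw [← Finset.mul_sum, ← Finset.sum_filter, norm_mul, Complex.norm_real]
    have h4 := B1_one χ T hpr (A) (B) hAB ((d : ℝ) ^ (-θ)) (2 + Real.log d) hθ0 hq1
      (fun N hN => g1 N (hq.trans (by exact_mod_cast hN))) (by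
        have h5 : (((B / (∏ p ∈ T, p) : ℕ) : ℝ) / ((A / (∏ p ∈ T, p) : ℕ) : ℝ)) ≤ d := by
          have h6 : ((B / (∏ p ∈ T, p) : ℕ) : ℝ) ≤ d :=
            le_trans (by exact_mod_cast Nat.div_le_self _ _) hBd
          have h7 : (1 : ℝ) ≤ ((A / (∏ p ∈ T, p) : ℕ) : ℝ) := by exact_mod_cast hq1
          exact (div_le_self (Nat.cast_nonneg _) h7).trans h6
        have h8 : (0 : ℝ) < (((B / (∏ p ∈ T, p) : ℕ) : ℝ) / ((A / (∏ p ∈ T, p) : ℕ) : ℝ)) := by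
          have h9 : 1 ≤ B / (∏ p ∈ T, p) := hq1.trans (Nat.div_le_div_right hAB)
          have h10 : (0 : ℝ) < ((B / (∏ p ∈ T, p) : ℕ) : ℝ) := by exact_mod_cast h9
          have h11 : (0 : ℝ) < ((A / (∏ p ∈ T, p) : ℕ) : ℝ) := by exact_mod_cast hq1
          exact div_pos h10 h11
        have h12 := Real.log_le_log h8 h5
        linarith)
    calc ‖u T‖ * _ ≤ 1 * (1 / ((∏ p ∈ T, p : ℕ) : ℝ) * ((d : ℝ) ^ (-θ) * (2 + Real.log d))) :=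
          mul_le_mul (hF.u_abs T) h4 (norm_nonneg _) zero_le_one
      _ = _ := one_mul _
  refine (sum_le_sum hterm).trans ?_
  rw [← Finset.sum_mul]
  have h5 := B1_harm (zz c d) K
  have h6 : Real.log (((zz c d) ^ K : ℕ) : ℝ) ≤ Real.log d := by
    have h7 : (((zz c d) ^ K : ℕ) : ℝ) ≤ d := hzK.trans (by
      calc (d : ℝ) ^ (1 / 100 : ℝ) ≤ (d : ℝ) ^ (1 : ℝ) :=
            Real.rpow_le_rpow_of_exponent_le hd1 (by linarith)
        _ = d := Real.rpow_one _)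
    rcases Nat.eq_zero_or_pos ((zz c d) ^ K) with h8 | h8
    · rw [h8, Nat.cast_zero, Real.log_zero]
      exact hlog
    · exact Real.log_le_log (by exact_mod_cast h8) h7
  have h9 : (0 : ℝ) ≤ (d : ℝ) ^ (-θ) * (2 + Real.log d) := by positivity
  calc (∑ T ∈ TT (zz c d) K, 1 / ((∏ p ∈ T, p : ℕ) : ℝ)) * ((d : ℝ) ^ (-θ) * (2 + Real.log d))
      ≤ (1 + Real.log d) * ((d : ℝ) ^ (-θ) * (2 + Real.log d)) :=
        mul_le_mul_of_nonneg_right (h5.trans (by linarith)) h9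
    _ = (1 + Real.log d) * ((2 + Real.log d) * (d : ℝ) ^ (-θ)) := by ring
    _ ≤ ε := g3

end Pool.Agent.Lib.MP_42948a_nt.PO
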