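import Pool.Agent.Lib.MP_42948a_nt.FR.Defs
import Pool.Agent.Lib.MP_42948a_nt.OM.E2

/-!
# A character of bounded order does not have positive real part at nearly all primes: definitions

`rg d z A B`, `MS`, `VP`, `zz` are in `MV/Defs.lean`.
-/

namespace Pool.Agent.Lib.MP_42948a_nt.PO

open Finset Pool.Agent.Lib.MP_42948a_nt.OA Pool.Agent.Lib.MP_42948a_nt.AC Pool.Agent.Lib.MP_42948a_nt.TQ
  Pool.Agent.Lib.MP_42948a_nt.PS Pool.Agent.Lib.MP_42948a_nt.EK Pool.Agent.Lib.MP_42948a_nt.MV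

/-- the convolution of `χ` and its conjugate -/
noncomputable def hh {d : ℕ} (χ : DirichletCharacter ℂ d) (n : ℕ) : ℂ :=
  ∑ x ∈ n.divisorsAntidiagonal, χ (x.1 : ZMod d) * (starRingEnd ℂ) (χ (x.2 : ZMod d))

/-- the rough numbers coprime to `d` are rough numbers -/
theorem MS_le_MM (d z B : ℕ) : MS d z 0 B ≤ OM.MM z B := by
  classical
  unfold MS OM.MM
  refine sum_le_sum_of_subset_of_nonneg ?_ fun n _ _ => by positivity
  intro n hn
  unfold OM.RR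
  rw [mem_filter, mem_Ioc]
  rw [mem_rg] at hn
  exact ⟨hn.1, hn.2.2⟩

theorem mass : ∃ C1 : ℝ, 1 ≤ C1 ∧ ∀ d z B N : ℕ, 2 ≤ z → z ≤ N → B ≤ N → MS d z 0 B ≤ C1 * (Real.log N / Real.log z) := by
  obtain ⟨C, hC, h⟩ := OM.MM_le
  exact ⟨C, hC, fun d z B N hz hzN hBN => (MS_mono le_rfl hBN).trans ((MS_le_MM d z N).trans (h z N hz hzN))⟩

end Pool.Agent.Lib.MP_42948a_nt.PO
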