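import Pool.Agent.Lib.MP_42948a_nt.PO.Defs

/-!
# The sizes

`z = ⌊d^c⌋₊ ≥ d^c - 1 ≥ d^(c/2)` for large `d`, so `z ≥ 2`, `z ≥ Z`, `log z ≥ (c/2) log d`, `k1 = ⌈2/c⌉₊`: `z^k1 ≥ d^((c/2) k1) ≥ d`. `y = ⌊d^(3/10)⌋₊`.
-/

namespace Pool.Agent.Lib.MP_42948a_nt.PO

open Finset Pool.Agent.Lib.MP_42948a_nt.OA Pool.Agent.Lib.MP_42948a_nt.AC Pool.Agent.Lib.MP_42948a_nt.TQ
  Pool.Agent.Lib.MP_42948a_nt.PS Pool.Agent.Lib.MP_42948a_nt.EK Pool.Agent.Lib.MP_42948a_nt.MV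

private theorem G1_pow (e M : ℝ) (he : 0 < e) : ∃ d0 : ℕ, ∀ d : ℕ, d0 ≤ d → M ≤ (d : ℝ) ^ e := by
  have h1 : Filter.Tendsto (fun d : ℕ => (d : ℝ) ^ e) Filter.atTop Filter.atTop :=
    (tendsto_rpow_atTop he).comp tendsto_natCast_atTop_atTop
  exact Filter.eventually_atTop.1 (h1.eventually_ge_atTop M)

theorem geo2 (c : ℝ) (hc : 0 < c) (hc1 : c ≤ 1 / 1000) (Z : ℝ) : ∃ k1 d0 : ℕ, ∀ d : ℕ, d0 ≤ d →
    2 ≤ zz c d ∧ Z ≤ (zz c d : ℝ) ∧ zz c d ≤ d ∧ d ≤ (zz c d) ^ k1 ∧ Real.log d ≤ 2 / c * Real.log (zz c d) ∧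
    1 ≤ ⌊(d : ℝ) ^ (3 / 10 : ℝ)⌋₊ ∧ ⌊(d : ℝ) ^ (3 / 10 : ℝ)⌋₊ ≤ ⌊(d : ℝ) ^ (4 / 5 : ℝ)⌋₊ ∧
    ⌈(d : ℝ) ^ (29 / 100 : ℝ)⌉₊ ≤ ⌊(d : ℝ) ^ (3 / 10 : ℝ)⌋₊ ∧
    ⌈(d : ℝ) ^ (29 / 100 : ℝ)⌉₊ ≤ ⌊(d : ℝ) ^ (3 / 5 : ℝ)⌋₊ / ⌊(d : ℝ) ^ (3 / 10 : ℝ)⌋₊ ∧
    ⌊(d : ℝ) ^ (4 / 5 : ℝ)⌋₊ ≤ d := by
  obtain ⟨d1, h1⟩ := G1_pow (c / 2) 2 (by positivity)
  obtain ⟨d2, h2⟩ := G1_pow (c / 2) Z (by positivity)
  obtain ⟨d3, h3⟩ := G1_pow (1 / 100) 3 (by norm_num)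
  refine ⟨⌈2 / c⌉₊, max (max d1 d2) (max d3 2), fun d hd => ?_⟩
  have hd1 := h1 d ((le_max_left _ _).trans ((le_max_left _ _).trans hd))
  have hd2 := h2 d ((le_max_right _ _).trans ((le_max_left _ _).trans hd))
  have hd3 := h3 d ((le_max_left _ _).trans ((le_max_right _ _).trans hd))
  have hd6 : 2 ≤ d := (le_max_right _ _).trans ((le_max_right _ _).trans hd)
  have hdr : (2 : ℝ) ≤ d := by exact_mod_cast hd6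
  have hd0 : (0 : ℝ) < d := by linarith
  have hdr1 : (1 : ℝ) ≤ d := by linarith
  have hL : 0 < Real.log d := Real.log_pos (by linarith)
  have hmono : ∀ {a b : ℝ}, a ≤ b → (d : ℝ) ^ a ≤ (d : ℝ) ^ b := fun h =>
    Real.rpow_le_rpow_of_exponent_le hdr1 h
  have hcc : (d : ℝ) ^ c = (d : ℝ) ^ (c / 2) * (d : ℝ) ^ (c / 2) := by
    rw [← Real.rpow_add hd0]
    congr 1
    ring
  have hzle : (zz c d : ℝ) ≤ (d : ℝ) ^ c := Nat.floor_le (by positivity)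
  have hzgt : (d : ℝ) ^ c < zz c d + 1 := Nat.lt_floor_add_one _
  have hDz : (d : ℝ) ^ (c / 2) ≤ zz c d := by
    have e1 : 2 * (d : ℝ) ^ (c / 2) ≤ (d : ℝ) ^ (c / 2) * (d : ℝ) ^ (c / 2) :=
      mul_le_mul_of_nonneg_right hd1 (by positivity)
    rw [← hcc] at e1
    linarith
  have hz2 : (2 : ℝ) ≤ zz c d := hd1.trans hDz
  have hlz1 : c / 2 * Real.log d ≤ Real.log (zz c d) := by
    have e := Real.log_le_log (by positivity) hDz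
    rwa [Real.log_rpow hd0] at e
  have hle1 : ∀ {a : ℝ}, a ≤ 1 → (d : ℝ) ^ a ≤ d := fun {a} h => by
    have e := hmono h
    rwa [Real.rpow_one] at e
  -- the numbers
  have hA1 : (1 : ℝ) ≤ (d : ℝ) ^ (29 / 100 : ℝ) := Real.one_le_rpow hdr1 (by norm_num)
  have hA2 : 3 * (d : ℝ) ^ (29 / 100 : ℝ) ≤ (d : ℝ) ^ (3 / 10 : ℝ) := by
    have e1 : 3 * (d : ℝ) ^ (29 / 100 : ℝ) ≤ (d : ℝ) ^ (1 / 100 : ℝ) * (d : ℝ) ^ (29 / 100 : ℝ) :=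
      mul_le_mul_of_nonneg_right hd3 (by positivity)
    rw [← Real.rpow_add hd0] at e1
    exact e1.trans (hmono (by norm_num))
  have hA3 : (3 : ℝ) ≤ (d : ℝ) ^ (3 / 10 : ℝ) := by linarith
  have hy1 : (⌊(d : ℝ) ^ (3 / 10 : ℝ)⌋₊ : ℝ) ≤ (d : ℝ) ^ (3 / 10 : ℝ) := Nat.floor_le (by positivity)
  have hy2 : 1 ≤ ⌊(d : ℝ) ^ (3 / 10 : ℝ)⌋₊ := by
    refine Nat.le_floor ?_
    push_cast
    linarith
  have hceil : (⌈(d : ℝ) ^ (29 / 100 : ℝ)⌉₊ : ℝ) < (d : ℝ) ^ (29 / 100 : ℝ) + 1 :=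
    Nat.ceil_lt_add_one (by positivity)
  refine ⟨by exact_mod_cast hz2, hd2.trans hDz, ?_, ?_, ?_, hy2, ?_, ?_, ?_, ?_⟩
  · have e1 : (zz c d : ℝ) ≤ d := hzle.trans (hle1 (by linarith))
    exact_mod_cast e1
  · have e3 : (d : ℝ) ≤ (zz c d : ℝ) ^ ⌈2 / c⌉₊ := by
      have e4 : ((d : ℝ) ^ (c / 2)) ^ ⌈2 / c⌉₊ ≤ (zz c d : ℝ) ^ ⌈2 / c⌉₊ :=
        pow_le_pow_left₀ (by positivity) hDz _
      refine le_trans ?_ e4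
      rw [← Real.rpow_natCast, ← Real.rpow_mul hd0.le]
      have e5 : (1 : ℝ) ≤ c / 2 * (⌈2 / c⌉₊ : ℝ) := by
        have e6 := Nat.le_ceil (2 / c)
        calc (1 : ℝ) = c / 2 * (2 / c) := by field_simp
          _ ≤ c / 2 * (⌈2 / c⌉₊ : ℝ) := mul_le_mul_of_nonneg_left e6 (by positivity)
      have e7 := hmono e5
      rwa [Real.rpow_one] at e7
    exact_mod_cast e3
  · have e1 : Real.log d = 2 / c * (c / 2 * Real.log d) := by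
      field_simp
    rw [e1]
    exact mul_le_mul_of_nonneg_left hlz1 (by positivity)
  · exact Nat.floor_le_floor (hmono (by norm_num))
  · refine Nat.le_floor ?_
    linarith
  · rw [Nat.le_div_iff_mul_le (by omega)]
    refine Nat.le_floor ?_
    push_cast
    have e1 : (⌈(d : ℝ) ^ (29 / 100 : ℝ)⌉₊ : ℝ) * (⌊(d : ℝ) ^ (3 / 10 : ℝ)⌋₊ : ℝ) ≤
        (d : ℝ) ^ (3 / 10 : ℝ) * (d : ℝ) ^ (3 / 10 : ℝ) := by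
      refine mul_le_mul ?_ hy1 (Nat.cast_nonneg _) (by positivity)
      linarith
    rw [← Real.rpow_add hd0] at e1
    refine e1.trans (hmono (by norm_num))
  · have e1 : (⌊(d : ℝ) ^ (4 / 5 : ℝ)⌋₊ : ℝ) ≤ (d : ℝ) ^ (4 / 5 : ℝ) := Nat.floor_le (by positivity)
    have e2 := e1.trans (hle1 (by norm_num))
    exact_mod_cast e2

end Pool.Agent.Lib.MP_42948a_nt.PO
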