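import Pool.Agent.Lib.MP_42948a_nt.PO.Defs

/-!
# Reindexing (job H1)
-/

namespace Pool.Agent.Lib.MP_42948a_nt.PO

open Finset Pool.Agent.Lib.MP_42948a_nt.OA Pool.Agent.Lib.MP_42948a_nt.AC Pool.Agent.Lib.MP_42948a_nt.TQ
  Pool.Agent.Lib.MP_42948a_nt.PS Pool.Agent.Lib.MP_42948a_nt.EK Pool.Agent.Lib.MP_42948a_nt.MV

/-- membership of a product -/
private theorem H1_mem {d z A B a b : ℕ} (ha : 0 < a) : a * b ∈ rg d z A B ↔
    (a.Coprime d ∧ Rough z a) ∧ b ∈ rg d z (A / a) (B / a) := by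
  rw [mem_rg, mem_rg, Nat.div_lt_iff_lt_mul ha, Nat.le_div_iff_mul_le ha, mul_comm b a, Nat.coprime_mul_iff_left]
  constructor
  · rintro ⟨h1, ⟨h2, h3⟩, h4⟩
    exact ⟨⟨h2, h4.of_dvd (Dvd.intro _ rfl)⟩, h1, h3, h4.of_dvd (Dvd.intro_left _ rfl)⟩
  · rintro ⟨⟨h2, h4⟩, h1, h3, h5⟩
    exact ⟨h1, ⟨h2, h3⟩, h4.mul h5⟩

theorem reindex (d z A B : ℕ) (F : ℕ → ℕ → ℂ) :
    ∑ n ∈ rg d z A B, ∑ x ∈ n.divisorsAntidiagonal, F x.1 x.2 =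
      ∑ a ∈ rg d z 0 B, ∑ b ∈ rg d z (A / a) (B / a), F a b := by
  rw [Finset.sum_sigma', Finset.sum_sigma']
  refine Finset.sum_bij' (fun x _ => ⟨x.2.1, x.2.2⟩) (fun x _ => ⟨x.1 * x.2, (x.1, x.2)⟩) ?_ ?_ ?_ ?_ ?_
  · rintro ⟨n, a, b⟩ hx
    rw [mem_sigma, Nat.mem_divisorsAntidiagonal] at hx
    obtain ⟨hn, hab, hn0⟩ := hx
    simp only at hn hab
    rw [← hab] at hn
    have ha : 0 < a := by
      rcases Nat.eq_zero_or_pos a with h | h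
      · rw [h, zero_mul] at hab
        exact absurd hab.symm hn0
      · exact h
    obtain ⟨⟨h1, h2⟩, h3⟩ := (H1_mem ha).1 hn
    rw [mem_sigma]
    refine ⟨mem_rg.2 ⟨⟨ha, ?_⟩, h1, h2⟩, h3⟩
    have hb : 0 < b := (mem_rg.1 h3).2.2.1
    exact (Nat.le_mul_of_pos_right a hb).trans (mem_rg.1 hn).1.2
  · rintro ⟨a, b⟩ hx
    rw [mem_sigma] at hx
    obtain ⟨ha, hb⟩ := hx
    simp only at ha hb
    have ha' := mem_rg.1 ha
    rw [mem_sigma, Nat.mem_divisorsAntidiagonal]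
    refine ⟨(H1_mem ha'.1.1).2 ⟨⟨ha'.2.1, ha'.2.2⟩, hb⟩, rfl, ?_⟩
    have hb0 : 0 < b := (mem_rg.1 hb).2.2.1
    exact (Nat.mul_pos ha'.1.1 hb0).ne'
  · rintro ⟨n, a, b⟩ hx
    rw [mem_sigma, Nat.mem_divisorsAntidiagonal] at hx
    obtain ⟨hn, hab, hn0⟩ := hx
    simp only at hab
    subst hab
    rfl
  · rintro ⟨a, b⟩ _
    rfl
  · rintro ⟨n, a, b⟩ _
    rfl

theorem hyper (d z A B y : ℕ) (hy : 1 ≤ y) (hyB : y ≤ B) (F : ℕ → ℕ → ℂ) :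
    ∑ a ∈ rg d z 0 B, ∑ b ∈ rg d z (A / a) (B / a), F a b =
      ∑ a ∈ rg d z 0 y, ∑ b ∈ rg d z (A / a) (B / a), F a b +
        ∑ b ∈ rg d z 0 (B / y), ∑ a ∈ rg d z (max y (A / b)) (B / b), F a b := by
  have h1 : rg d z 0 B = rg d z 0 y ∪ rg d z y B := by
    ext n
    rw [mem_union, mem_rg, mem_rg, mem_rg]
    constructor
    · rintro ⟨h2, h3⟩
      rcases le_or_gt n y with h | h
      · exact Or.inl ⟨⟨h2.1, h⟩, h3⟩
      · exact Or.inr ⟨⟨h, h2.2⟩, h3⟩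
    · rintro (⟨h2, h3⟩ | ⟨h2, h3⟩)
      · exact ⟨⟨h2.1, h2.2.trans hyB⟩, h3⟩
      · exact ⟨⟨by omega, h2.2⟩, h3⟩
  have h2 : Disjoint (rg d z 0 y) (rg d z y B) := by
    rw [Finset.disjoint_left]
    intro n hn hn'
    rw [mem_rg] at hn hn'
    omega
  rw [h1, sum_union h2]
  congr 1
  refine Finset.sum_comm' ?_
  intro a b
  constructor
  · rintro ⟨ha, hb⟩
    have ha' := mem_rg.1 ha
    have ha0 : 0 < a := by omega
    have hb' := mem_rg.1 hb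
    have hb0 : 0 < b := hb'.2.2.1
    rw [Nat.div_lt_iff_lt_mul ha0, Nat.le_div_iff_mul_le ha0] at hb'
    have h3 : b ≤ B / y := by
      rw [Nat.le_div_iff_mul_le hy]
      exact (Nat.mul_le_mul_left b ha'.1.1.le).trans hb'.1.2
    refine ⟨mem_rg.2 ⟨⟨max_lt ha'.1.1 ?_, ?_⟩, ha'.2⟩, mem_rg.2 ⟨⟨hb0, h3⟩, hb'.2⟩⟩
    · rw [Nat.div_lt_iff_lt_mul hb0, mul_comm]
      exact hb'.1.1
    · rw [Nat.le_div_iff_mul_le hb0, mul_comm]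
      exact hb'.1.2
  · rintro ⟨ha, hb⟩
    have ha' := mem_rg.1 ha
    have hb' := mem_rg.1 hb
    have hb0 : 0 < b := hb'.1.1
    have h3 : y < a := (le_max_left _ _).trans_lt ha'.1.1
    have h4 : A / b < a := (le_max_right _ _).trans_lt ha'.1.1
    have ha0 : 0 < a := by omega
    have h5 := ha'.1.2
    rw [Nat.div_lt_iff_lt_mul hb0] at h4
    refine ⟨mem_rg.2 ⟨⟨h3, h5.trans (Nat.div_le_self _ _)⟩, ha'.2⟩, mem_rg.2 ⟨⟨?_, ?_⟩, hb'.2⟩⟩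
    · rw [Nat.div_lt_iff_lt_mul ha0, mul_comm]
      exact h4
    · rw [Nat.le_div_iff_mul_le ha0, mul_comm]
      rw [Nat.le_div_iff_mul_le hb0] at h5
      exact h5

end Pool.Agent.Lib.MP_42948a_nt.PO
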