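import Pool.Agent.Lib.MP_42948a_nt.PO.B1

/-!
# The character sum over rough numbers (job I1)

If `B < A` the set `rg d z A B` is empty. Otherwise `upper_sum` (`MV/C1.lean`), `window_up`, `window_low` (`MV/S2.lean`) and `burgess_rho3` with `ε/4`: the norm is `≤ ε/4 + ((1+τ) X + E) - ((1-τ) X - E) = ε/4 + 2 τ X + 2 E`, with
`X = VP d z log(B/A) ≤ (1/log z) log d ≤ 2/c` (`VP_upper` in `FR/Defs.lean`, `VV_nonneg'`, `B/A ≤ B ≤ d`; for large `d`: `z ≥ d^c - 1 ≥ d^(c/2)`, `log z ≥ (c/2) log d`, `z ≥ 2`), so `2 τ X ≤ 4 τ/c`; `z^K ≤ d^(K c) ≤ d^(1/100) ≤ A`;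
`E = 12 z^K #divisors d / A ≤ 12 d^(1/100) (C d^(1/100)) d^(-29/100) ≤ ε/4` for large `d` (see the private lemmas of `FR/G1.lean` for the divisor bound; copy what you need). The end of the proof of `far_one` in `FR/M.lean` is similar.
-/

namespace Pool.Agent.Lib.MP_42948a_nt.PO

open Finset Pool.Agent.Lib.MP_42948a_nt.OA Pool.Agent.Lib.MP_42948a_nt.AC Pool.Agent.Lib.MP_42948a_nt.TQ
  Pool.Agent.Lib.MP_42948a_nt.PS Pool.Agent.Lib.MP_42948a_nt.EK Pool.Agent.Lib.MP_42948a_nt.MV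

private theorem I1_pow (e M : ℝ) (he : 0 < e) : ∃ d0 : ℕ, ∀ d : ℕ, d0 ≤ d → M ≤ (d : ℝ) ^ e := by
  have h1 : Filter.Tendsto (fun d : ℕ => (d : ℝ) ^ e) Filter.atTop Filter.atTop :=
    (tendsto_rpow_atTop he).comp tendsto_natCast_atTop_atTop
  exact Filter.eventually_atTop.1 (h1.eventually_ge_atTop M)

theorem inner_sum (m : ℕ) (hm : 1 ≤ m) (K : ℕ) (c τ : ℝ) (hc : 0 < c) (hc1 : c ≤ 1 / 1000) (hτ : 0 < τ) (hτ1 : τ ≤ 1)
    (hKc : ((K : ℝ) + 2) * c ≤ 1 / 100) (ε : ℝ) (hε : 0 < ε) : ∃ d0 : ℕ, ∀ d : ℕ, d0 ≤ d → ∀ [NeZero d],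
    ∀ (u l : Finset ℕ → ℝ), Fund τ K (zz c d) u l → ∀ χ : DirichletCharacter ℂ d, χ ≠ 1 → χ ^ m = 1 →
      ∀ A B : ℕ, (d : ℝ) ^ (29 / 100 : ℝ) ≤ A → B ≤ d →
        ‖∑ n ∈ rg d (zz c d) A B, ((1 / (n : ℝ) : ℝ) : ℂ) * χ (n : ZMod d)‖ ≤ 4 * τ / c + ε := by
  classical
  have hKc1 : (K : ℝ) * c ≤ 1 / 100 := by nlinarith
  obtain ⟨d1, h1⟩ := I1_pow (c / 2) 2 (by positivity)
  obtain ⟨d3, h3⟩ := I1_pow (1 / 10) (48 / ε) (by norm_num)
  obtain ⟨d4, h4⟩ := BB_le (1 / 100) (by norm_num)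
  obtain ⟨d5, h5⟩ := burgess_rho3 m hm K c hc hKc1 (ε / 4) (by positivity)
  refine ⟨d1 + d3 + d4 + d5 + 2, fun d hd _ u l hF χ hχ hχm A B hA hB => ?_⟩
  have hτc : 0 ≤ 4 * τ / c := by positivity
  rcases lt_or_ge B A with hBA | hAB
  · have hemp : rg d (zz c d) A B = ∅ := by
      ext n
      rw [mem_rg]
      constructor
      · rintro ⟨h, -⟩
        omega
      · intro h
        simp at h
    rw [hemp, sum_empty, norm_zero]
    positivity
  have hd1 := h1 d (by omega)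
  have hd3 := h3 d (by omega)
  have hd4 := (h4 d (by omega)).2
  have hd5 := h5 d (by omega) τ u l hF χ hχ hχm A B hA hAB hB
  have hdr : (2 : ℝ) ≤ d := by exact_mod_cast (by omega : 2 ≤ d)
  have hd0 : (0 : ℝ) < d := by linarith
  have hdr1 : (1 : ℝ) ≤ d := by linarith
  have hL : 0 < Real.log d := Real.log_pos (by linarith)
  have hmono : ∀ {a b : ℝ}, a ≤ b → (d : ℝ) ^ a ≤ (d : ℝ) ^ b := fun h =>
    Real.rpow_le_rpow_of_exponent_le hdr1 h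
  have hcc : (d : ℝ) ^ c = (d : ℝ) ^ (c / 2) * (d : ℝ) ^ (c / 2) := by
    rw [← Real.rpow_add hd0]
    congr 1
    ring
  have hzle : (zz c d : ℝ) ≤ (d : ℝ) ^ c := Nat.floor_le (by positivity)
  have hzgt : (d : ℝ) ^ c < zz c d + 1 := Nat.lt_floor_add_one _
  have hDz : (d : ℝ) ^ (c / 2) ≤ zz c d := by
    have e1 : 2 * (d : ℝ) ^ (c / 2) ≤ (d : ℝ) ^ (c / 2) * (d : ℝ) ^ (c / 2) :=
      mul_le_mul_of_nonneg_right hd1 (by positivity)
    rw [← hcc] at e1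
    linarith
  have hz2' : (2 : ℝ) ≤ zz c d := hd1.trans hDz
  have hz2 : 2 ≤ zz c d := by exact_mod_cast hz2'
  have hlz1 : c / 2 * Real.log d ≤ Real.log (zz c d) := by
    have e := Real.log_le_log (by positivity) hDz
    rwa [Real.log_rpow hd0] at e
  have hlz0 : 0 < Real.log (zz c d) := Real.log_pos (by linarith)
  have hzK : (zz c d : ℝ) ^ K ≤ (d : ℝ) ^ (1 / 100 : ℝ) := by
    have e1 : (zz c d : ℝ) ^ K ≤ (d : ℝ) ^ (c * K) := by
      rw [Real.rpow_mul hd0.le, Real.rpow_natCast]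
      exact pow_le_pow_left₀ (Nat.cast_nonneg _) hzle K
    exact e1.trans (hmono (by linarith))
  have hA0 : (0 : ℝ) < A := lt_of_lt_of_le (by positivity) hA
  have hA1 : 1 ≤ A := by
    have : 0 < A := by exact_mod_cast hA0
    omega
  have hzKA : (zz c d) ^ K ≤ A := by
    have e1 : (zz c d : ℝ) ^ K ≤ A := hzK.trans ((hmono (by norm_num)).trans hA)
    exact_mod_cast e1
  have hABr : (A : ℝ) ≤ B := by exact_mod_cast hAB
  have hB0 : (0 : ℝ) < B := hA0.trans_le hABr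
  have hU := upper_sum hF d χ A B
  have hW1 := window_up hF hz2 d (by omega) A B hzKA hAB
  have hW2 := window_low hF hz2 d (by omega) A B hzKA hAB
  obtain ⟨X, hX⟩ : ∃ X : ℝ, X = VP d (zz c d) * Real.log ((B : ℝ) / A) := ⟨_, rfl⟩
  obtain ⟨E, hE⟩ : ∃ E : ℝ, E = 12 * (zz c d : ℝ) ^ K * (d.divisors.card : ℝ) / A := ⟨_, rfl⟩
  rw [← hX, ← hE] at hW1 hW2
  have hXc : X ≤ 2 / c := by
    have hlog : Real.log ((B : ℝ) / A) ≤ Real.log d := by
      refine Real.log_le_log (by positivity) ?_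
      have e1 : (B : ℝ) / A ≤ B := div_le_self hB0.le (by exact_mod_cast hA1)
      have e2 : (B : ℝ) ≤ d := by exact_mod_cast hB
      exact e1.trans e2
    have e1 : X ≤ VP d (zz c d) * Real.log d := by
      rw [hX]
      exact mul_le_mul_of_nonneg_left hlog (VV_nonneg' d _)
    have e2 : VP d (zz c d) * Real.log d ≤ 1 / Real.log (zz c d) * Real.log d :=
      mul_le_mul_of_nonneg_right (FR.VP_upper d _ hz2) hL.le
    have e3 : 1 / Real.log (zz c d) * Real.log d ≤ 2 / c := by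
      rw [one_div_mul_eq_div, div_le_div_iff₀ hlz0 hc]
      linarith
    linarith
  have hτX : 2 * τ * X ≤ 4 * τ / c := by
    have e1 : 2 * τ * X ≤ 2 * τ * (2 / c) := mul_le_mul_of_nonneg_left hXc (by positivity)
    have e2 : 2 * τ * (2 / c) = 4 * τ / c := by ring
    linarith
  have hEε : E ≤ ε / 4 := by
    rw [hE, div_le_iff₀ hA0]
    have e1 : (zz c d : ℝ) ^ K * (d.divisors.card : ℝ) ≤
        (d : ℝ) ^ (1 / 100 : ℝ) * (d : ℝ) ^ (1 / 100 : ℝ) :=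
      mul_le_mul hzK hd4 (by positivity) (by positivity)
    rw [← Real.rpow_add hd0] at e1
    have e2 : (zz c d : ℝ) ^ K * (d.divisors.card : ℝ) ≤ (d : ℝ) ^ (1 / 10 : ℝ) :=
      e1.trans (hmono (by norm_num))
    have e3 : 48 ≤ ε * (d : ℝ) ^ (1 / 10 : ℝ) := by
      have e := mul_le_mul_of_nonneg_left hd3 hε.le
      rwa [mul_div_cancel₀ _ hε.ne'] at e
    have e4 : 48 * (d : ℝ) ^ (1 / 10 : ℝ) ≤ ε * (d : ℝ) ^ (1 / 10 : ℝ) * (d : ℝ) ^ (1 / 10 : ℝ) :=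
      mul_le_mul_of_nonneg_right e3 (by positivity)
    have e5 : ε * (d : ℝ) ^ (1 / 10 : ℝ) * (d : ℝ) ^ (1 / 10 : ℝ) =
        ε * (d : ℝ) ^ (1 / 5 : ℝ) := by
      rw [mul_assoc, ← Real.rpow_add hd0]
      norm_num
    have e6 : ε * (d : ℝ) ^ (1 / 5 : ℝ) ≤ ε * A :=
      mul_le_mul_of_nonneg_left ((hmono (by norm_num)).trans hA) hε.le
    have e8 : 12 * (zz c d : ℝ) ^ K * (d.divisors.card : ℝ) =
        12 * ((zz c d : ℝ) ^ K * (d.divisors.card : ℝ)) := by ring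
    rw [e8]
    linarith
  linarith

end Pool.Agent.Lib.MP_42948a_nt.PO
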