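import Pool.Agent.Lib.MP_42948a_nt.PO.Defs

/-!
# Divisor bounds (job Q2)

`hh_norm`: triangle inequality, `‖χ‖ ≤ 1`, `#n.divisorsAntidiagonal = #n.divisors` (`Nat.map_div_right_divisors` / `Nat.card_divisorsAntidiagonal`-like, or `Nat.sum_divisorsAntidiagonal`).
`div_rough`: `z^Ω(n) ≤ n` (all primes of `n` are `> z`; induction over the prime factors, e.g. `Nat.recOnMul` or `List.prod` of `n.primeFactorsList`), so `Ω(n) ≤ k` (`z ≥ 2`, `Nat.pow_le_pow_iff_right`); `#n.divisors = ∏ (v_p + 1) ≤ ∏ 2^(v_p) = 2^Ω(n)` (`Nat.card_divisors`, `ArithmeticFunction.cardFactors_eq_sum_factorization`, `Nat.lt_two_pow_self`).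
-/

namespace Pool.Agent.Lib.MP_42948a_nt.PO

open Finset Pool.Agent.Lib.MP_42948a_nt.OA Pool.Agent.Lib.MP_42948a_nt.AC Pool.Agent.Lib.MP_42948a_nt.TQ
  Pool.Agent.Lib.MP_42948a_nt.PS Pool.Agent.Lib.MP_42948a_nt.EK Pool.Agent.Lib.MP_42948a_nt.MV

theorem hh_norm (d : ℕ) (χ : DirichletCharacter ℂ d) (n : ℕ) : ‖hh χ n‖ ≤ (n.divisors.card : ℝ) := by
  unfold hh
  calc ‖∑ x ∈ n.divisorsAntidiagonal, χ (x.1 : ZMod d) * (starRingEnd ℂ) (χ (x.2 : ZMod d))‖
      ≤ ∑ x ∈ n.divisorsAntidiagonal, ‖χ (x.1 : ZMod d) * (starRingEnd ℂ) (χ (x.2 : ZMod d))‖ :=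
        norm_sum_le _ _
    _ ≤ ∑ x ∈ n.divisorsAntidiagonal, (1 : ℝ) := by
        refine sum_le_sum fun x _ => ?_
        rw [norm_mul, RCLike.norm_conj]
        exact mul_le_one₀ (χ.norm_le_one _) (norm_nonneg _) (χ.norm_le_one _)
    _ = (n.divisors.card : ℝ) := by
        rw [Nat.sum_divisorsAntidiagonal (fun _ _ => (1 : ℝ))]
        simp

private theorem Q2_card_mul {p m : ℕ} (hp : p.Prime) (hm : m ≠ 0) :
    (p * m).divisors.card ≤ 2 * m.divisors.card := by
  classical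
  have h1 : (p * m).divisors ⊆ m.divisors ∪ m.divisors.image (fun e => p * e) := by
    intro e he
    have he' := Nat.dvd_of_mem_divisors he
    rw [mem_union, mem_image]
    by_cases hpe : p ∣ e
    · obtain ⟨f, rfl⟩ := hpe
      exact Or.inr ⟨f, Nat.mem_divisors.mpr ⟨Nat.dvd_of_mul_dvd_mul_left hp.pos he', hm⟩, rfl⟩
    · have hc : Nat.Coprime e p := ((Nat.Prime.coprime_iff_not_dvd hp).mpr hpe).symm
      exact Or.inl (Nat.mem_divisors.mpr ⟨hc.dvd_of_dvd_mul_left he', hm⟩)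
  calc (p * m).divisors.card ≤ (m.divisors ∪ m.divisors.image (fun e => p * e)).card := card_le_card h1
    _ ≤ m.divisors.card + (m.divisors.image (fun e => p * e)).card := card_union_le _ _
    _ ≤ m.divisors.card + m.divisors.card := Nat.add_le_add_left card_image_le _
    _ = 2 * m.divisors.card := by ring

private theorem Q2_exists (z : ℕ) : ∀ n : ℕ, Rough z n → ∃ j : ℕ, n.divisors.card ≤ 2 ^ j ∧ z ^ j ≤ n := by
  intro n
  induction n using Nat.strong_induction_on with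
  | _ n ih =>
    intro hn
    rcases Nat.eq_or_lt_of_le (Nat.succ_le_of_lt hn.1) with h1 | h1
    · refine ⟨0, ?_, ?_⟩
      · rw [← h1]
        simp
      · rw [← h1]
        simp
    · have hne : n ≠ 1 := by omega
      have hp := Nat.minFac_prime hne
      obtain ⟨m, hm⟩ := Nat.minFac_dvd n
      have hm0 : m ≠ 0 := by
        rintro rfl
        have := hn.1
        omega
      have hlt : m < n := by
        rw [hm]
        have h2 := hp.two_le
        have h3 : 0 < m := Nat.pos_of_ne_zero hm0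
        calc m = 1 * m := (one_mul m).symm
          _ < n.minFac * m := Nat.mul_lt_mul_of_pos_right (by omega) h3
      obtain ⟨j, hj1, hj2⟩ := ih m hlt (hn.of_dvd ⟨n.minFac, by rw [mul_comm]; exact hm⟩)
      refine ⟨j + 1, ?_, ?_⟩
      · calc n.divisors.card = (n.minFac * m).divisors.card := by rw [← hm]
          _ ≤ 2 * m.divisors.card := Q2_card_mul hp hm0
          _ ≤ 2 * 2 ^ j := Nat.mul_le_mul_left _ hj1
          _ = 2 ^ (j + 1) := by ring
      · calc z ^ (j + 1) = z * z ^ j := by ring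
          _ ≤ n.minFac * m := Nat.mul_le_mul (hn.2 _ hp (Nat.minFac_dvd n)).le hj2
          _ = n := hm.symm

theorem div_rough (z k n : ℕ) (hz : 2 ≤ z) (hn : Rough z n) (hn2 : n ≤ z ^ k) : n.divisors.card ≤ 2 ^ k := by
  obtain ⟨j, hj1, hj2⟩ := Q2_exists z n hn
  have hjk : j ≤ k := (Nat.pow_le_pow_iff_right (by omega : 1 < z)).mp (hj2.trans hn2)
  exact hj1.trans (Nat.pow_le_pow_right (by norm_num) hjk)

end Pool.Agent.Lib.MP_42948a_nt.PO
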