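import Pool.Agent.Lib.MP_42948a_nt.PO.Defs

/-!
# The rough numbers which are not squarefree (job Q3)

If `n` is not squarefree there is a prime `p` with `p^2 ∣ n` (`Nat.squarefree_iff_prime_squarefree`), and `p > z` as `n` is `z`-rough, `p ≤ B`. For every `q ≥ 1`: `∑_{n ∈ rg d z A B, q ∣ n} 1/n ≤ (1/q) M` (private lemma `C2_mult` of `MV/C2.lean`: copy it, `q = p^2`).
So the sum is `≤ M ∑_{z < p ≤ B} 1/p^2 ≤ M ∑_{z < n ≤ B} 1/n^2 ≤ M/z` (`1/n^2 ≤ 1/(n-1) - 1/n`; `sum_Ioc_inv_sq_le_sub` or `sum_Ioo_inv_sq_le` in Mathlib).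
-/

namespace Pool.Agent.Lib.MP_42948a_nt.PO

open Finset Pool.Agent.Lib.MP_42948a_nt.OA Pool.Agent.Lib.MP_42948a_nt.AC Pool.Agent.Lib.MP_42948a_nt.TQ
  Pool.Agent.Lib.MP_42948a_nt.PS Pool.Agent.Lib.MP_42948a_nt.EK Pool.Agent.Lib.MP_42948a_nt.MV

private theorem Q3_mult (d z A B : ℕ) (M : ℝ) (hM : ∀ q : ℕ, 1 ≤ q → MS d z (A / q) (B / q) ≤ M)
    (q : ℕ) (hq : 1 ≤ q) :
    ∑ n ∈ (rg d z A B).filter (fun n => q ∣ n), 1 / (n : ℝ) ≤ 1 / (q : ℝ) * M := by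
  have hqr : (0 : ℝ) < q := by exact_mod_cast hq
  have hdvd : ∀ n ∈ (rg d z A B).filter (fun n => q ∣ n), q * (n / q) = n := fun n hn =>
    Nat.mul_div_cancel' (mem_filter.1 hn).2
  have h1 : ∑ n ∈ (rg d z A B).filter (fun n => q ∣ n), 1 / (n : ℝ) =
      ∑ n ∈ (rg d z A B).filter (fun n => q ∣ n), 1 / (q : ℝ) * (1 / ((n / q : ℕ) : ℝ)) := by
    refine sum_congr rfl fun n hn => ?_
    have h2 : ((q : ℝ)) * ((n / q : ℕ) : ℝ) = n := by exact_mod_cast hdvd n hn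
    rw [← h2]
    ring
  rw [h1, ← mul_sum]
  refine mul_le_mul_of_nonneg_left ?_ (by positivity)
  have hinj : Set.InjOn (fun n => n / q) ((rg d z A B).filter (fun n => q ∣ n)) := by
    intro a ha b hb hab
    have h2 := hdvd a ha
    have h3 := hdvd b hb
    have hab' : a / q = b / q := hab
    rw [← h2, ← h3, hab']
  have h2 : ∑ n ∈ (rg d z A B).filter (fun n => q ∣ n), 1 / ((n / q : ℕ) : ℝ) =
      ∑ m ∈ ((rg d z A B).filter (fun n => q ∣ n)).image (fun n => n / q), 1 / (m : ℝ) := by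
    rw [sum_image hinj]
  rw [h2]
  refine le_trans ?_ (hM q hq)
  unfold MS
  refine sum_le_sum_of_subset_of_nonneg ?_ fun m _ _ => by positivity
  intro m hm
  obtain ⟨n, hn, rfl⟩ := mem_image.1 hm
  have h3 := hdvd n hn
  obtain ⟨⟨a1, a2⟩, a3, a4⟩ := mem_rg.1 (mem_filter.1 hn).1
  have hmn : n / q ∣ n := Dvd.intro_left q h3
  rw [mem_rg]
  refine ⟨⟨?_, Nat.div_le_div_right a2⟩, Nat.Coprime.coprime_dvd_left hmn a3, a4.of_dvd hmn⟩
  rw [Nat.div_lt_iff_lt_mul hq, Nat.mul_comm, h3]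
  exact a1

open Classical in
theorem nonsqf (d z A B : ℕ) (hz : 2 ≤ z) (M : ℝ) (hM : ∀ q : ℕ, 1 ≤ q → MS d z (A / q) (B / q) ≤ M) :
    ∑ n ∈ (rg d z A B).filter (fun n => ¬ Squarefree n), 1 / (n : ℝ) ≤ 2 * M / z := by
  have hM0 : 0 ≤ M := (MS_nonneg d z (A / 1) (B / 1)).trans (hM 1 le_rfl)
  have hzr : (0 : ℝ) < z := by exact_mod_cast (by omega : 0 < z)
  have hex : ∀ n ∈ (rg d z A B).filter (fun n => ¬ Squarefree n), ∃ p ∈ Ioc z B, p ^ 2 ∣ n := by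
    intro n hn
    obtain ⟨hn1, hn2⟩ := mem_filter.1 hn
    obtain ⟨⟨a1, a2⟩, a3, a4⟩ := mem_rg.1 hn1
    rw [Nat.squarefree_iff_prime_squarefree] at hn2
    push Not at hn2
    obtain ⟨p, hp, hpn⟩ := hn2
    have hpn' : p ∣ n := Dvd.dvd.trans (Dvd.intro _ rfl) hpn
    refine ⟨p, mem_Ioc.2 ⟨a4.2 p hp hpn', (Nat.le_of_dvd a4.1 hpn').trans a2⟩, ?_⟩
    rw [sq]
    exact hpn
  have hnn : ∀ n : ℕ, ∀ p : ℕ, (0 : ℝ) ≤ if p ^ 2 ∣ n then 1 / (n : ℝ) else 0 := by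
    intro n p
    split_ifs
    · positivity
    · exact le_rfl
  calc ∑ n ∈ (rg d z A B).filter (fun n => ¬ Squarefree n), 1 / (n : ℝ)
      ≤ ∑ n ∈ (rg d z A B).filter (fun n => ¬ Squarefree n), ∑ p ∈ Ioc z B, (if p ^ 2 ∣ n then 1 / (n : ℝ) else 0) := by
        refine sum_le_sum fun n hn => ?_
        obtain ⟨p, hp, hpn⟩ := hex n hn
        have h1 : (if p ^ 2 ∣ n then 1 / (n : ℝ) else 0) = 1 / (n : ℝ) := if_pos hpn
        exact h1.symm.le.trans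
          (single_le_sum (f := fun p => if p ^ 2 ∣ n then 1 / (n : ℝ) else 0) (fun q _ => hnn n q) hp)
    _ ≤ ∑ n ∈ rg d z A B, ∑ p ∈ Ioc z B, (if p ^ 2 ∣ n then 1 / (n : ℝ) else 0) :=
        sum_le_sum_of_subset_of_nonneg (filter_subset _ _) fun n _ _ => sum_nonneg fun p _ => hnn n p
    _ = ∑ p ∈ Ioc z B, ∑ n ∈ (rg d z A B).filter (fun n => p ^ 2 ∣ n), 1 / (n : ℝ) := by
        rw [sum_comm]
        exact sum_congr rfl fun p _ => (sum_filter _ _).symm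
    _ ≤ ∑ p ∈ Ioc z B, ((p : ℝ) ^ 2)⁻¹ * M := by
        refine sum_le_sum fun p hp => ?_
        have hp1 : 1 ≤ p ^ 2 := Nat.one_le_pow _ _ (by have := (mem_Ioc.1 hp).1; omega)
        have h := Q3_mult d z A B M hM (p ^ 2) hp1
        rw [one_div] at h
        push_cast at h
        exact h
    _ = (∑ p ∈ Ioc z B, ((p : ℝ) ^ 2)⁻¹) * M := by rw [sum_mul]
    _ ≤ (1 / (z : ℝ)) * M := by
        refine mul_le_mul_of_nonneg_right ?_ hM0
        rcases le_total z B with h | h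
        · have h1 := sum_Ioc_inv_sq_le_sub (α := ℝ) (by omega : z ≠ 0) h
          have h2 : (0 : ℝ) ≤ (B : ℝ)⁻¹ := by positivity
          rw [one_div]
          linarith
        · rw [Ioc_eq_empty (by omega), sum_empty]
          positivity
    _ ≤ 2 * M / z := by
        rw [one_div, inv_mul_eq_div]
        gcongr
        linarith

end Pool.Agent.Lib.MP_42948a_nt.PO
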