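import Pool.Agent.Lib.MP_42948a_nt.PO.Q1
import Pool.Agent.Lib.MP_42948a_nt.PO.Q2
import Pool.Agent.Lib.MP_42948a_nt.PO.Q3
import Pool.Agent.Lib.MP_42948a_nt.MV.C2

/-!
# The lower bound of the convolution sum
-/

namespace Pool.Agent.Lib.MP_42948a_nt.PO

open Finset Pool.Agent.Lib.MP_42948a_nt.OA Pool.Agent.Lib.MP_42948a_nt.AC Pool.Agent.Lib.MP_42948a_nt.TQ
  Pool.Agent.Lib.MP_42948a_nt.PS Pool.Agent.Lib.MP_42948a_nt.EK Pool.Agent.Lib.MP_42948a_nt.MV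

open Classical in
private theorem L1_point (d : ℕ) (χ : DirichletCharacter ℂ d) (z k n : ℕ) (hz : 2 ≤ z)
    (Sb : Finset ℕ) (hSb : ∀ p ∈ Sb, p.Prime) (hn : Rough z n) (hnk : n ≤ z ^ k)
    (hgood : ∀ p : ℕ, p.Prime → p ∣ n → p ∈ Sb ∨ 3 / 10 ≤ (χ (p : ZMod d)).re) :
    (if n.Prime ∧ n ∉ Sb then (6 / 10 : ℝ) else 0) - (2 ^ k : ℝ) * (if ∃ p ∈ Sb, p ∣ n then 1 else 0) -
      (2 ^ k : ℝ) * (if ¬ Squarefree n then 1 else 0) ≤ (hh χ n).re := by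
  have h0 : -(2 ^ k : ℝ) ≤ (hh χ n).re := by
    have h1 : ‖hh χ n‖ ≤ (2 ^ k : ℝ) := (hh_norm d χ n).trans (by exact_mod_cast div_rough z k n hz hn hnk)
    have h2 := (abs_le.mp (Complex.abs_re_le_norm (hh χ n))).1
    linarith
  have h2k : (0 : ℝ) < 2 ^ k := by positivity
  by_cases hs : Squarefree n
  · by_cases hb : ∃ p ∈ Sb, p ∣ n
    · obtain ⟨p, hp, hpn⟩ := hb
      have h1 : ¬ (n.Prime ∧ n ∉ Sb) := by
        rintro ⟨h2, h3⟩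
        rw [(Nat.prime_dvd_prime_iff_eq (hSb p hp) h2).mp hpn] at hp
        exact h3 hp
      rw [if_neg h1, if_pos ⟨p, hp, hpn⟩, if_neg (not_not.mpr hs)]
      linarith
    · have hgood' : ∀ p ∈ n.primeFactors, 3 / 10 ≤ (χ (p : ZMod d)).re := by
        intro p hp
        refine (hgood p (Nat.prime_of_mem_primeFactors hp) (Nat.dvd_of_mem_primeFactors hp)).resolve_left fun h => ?_
        exact hb ⟨p, h, Nat.dvd_of_mem_primeFactors hp⟩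
      have h1 : (hh χ n).re = ∏ p ∈ n.primeFactors, 2 * (χ (p : ZMod d)).re := by
        rw [hh_sqf d χ n hs, Complex.ofReal_re]
      rw [if_neg hb, if_neg (not_not.mpr hs), h1]
      have h2 : 0 ≤ ∏ p ∈ n.primeFactors, 2 * (χ (p : ZMod d)).re :=
        prod_nonneg fun p hp => by linarith [hgood' p hp]
      by_cases hp : n.Prime ∧ n ∉ Sb
      · rw [if_pos hp]
        have h3 : ∏ p ∈ n.primeFactors, 2 * (χ (p : ZMod d)).re = 2 * (χ (n : ZMod d)).re := by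
          rw [hp.1.primeFactors, prod_singleton]
        have h4 := hgood' n (by rw [hp.1.primeFactors]; exact mem_singleton_self n)
        rw [h3]
        linarith
      · rw [if_neg hp]
        linarith
  · have h1 : ¬ (n.Prime ∧ n ∉ Sb) := fun h => hs h.1.squarefree
    rw [if_neg h1, if_pos hs]
    have h3 : (0 : ℝ) ≤ (2 ^ k : ℝ) * (if ∃ p ∈ Sb, p ∣ n then 1 else 0) := by
      refine mul_nonneg h2k.le ?_
      split_ifs
      · norm_num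
      · exact le_refl _
    linarith

open Classical in
theorem lower_T (d : ℕ) (χ : DirichletCharacter ℂ d) (z A B k : ℕ) (hz : 2 ≤ z) (hB : B ≤ z ^ k) (M : ℝ)
    (hM : ∀ q : ℕ, 1 ≤ q → MS d z (A / q) (B / q) ≤ M) (Sb : Finset ℕ) (hSb : ∀ p ∈ Sb, p.Prime)
    (hgood : ∀ n ∈ rg d z A B, ∀ p : ℕ, p.Prime → p ∣ n → p ∈ Sb ∨ 3 / 10 ≤ (χ (p : ZMod d)).re)
    (W : Finset ℕ) (hW : ∀ p ∈ W, p.Prime ∧ p ∈ rg d z A B) :
    6 / 10 * (∑ p ∈ W, 1 / (p : ℝ) - ∑ p ∈ Sb, 1 / (p : ℝ)) - (2 ^ k : ℝ) * (M * ∑ p ∈ Sb, 1 / (p : ℝ)) -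
      (2 ^ k : ℝ) * (2 * M / z) ≤ (∑ n ∈ rg d z A B, ((1 / (n : ℝ) : ℝ) : ℂ) * hh χ n).re := by
  have h1 : (∑ n ∈ rg d z A B, ((1 / (n : ℝ) : ℝ) : ℂ) * hh χ n).re = ∑ n ∈ rg d z A B, 1 / (n : ℝ) * (hh χ n).re := by
    rw [Complex.re_sum]
    exact sum_congr rfl fun n _ => Complex.re_ofReal_mul _ _
  have h2 : ∑ n ∈ rg d z A B, 1 / (n : ℝ) * ((if n.Prime ∧ n ∉ Sb then (6 / 10 : ℝ) else 0) -
      (2 ^ k : ℝ) * (if ∃ p ∈ Sb, p ∣ n then 1 else 0) - (2 ^ k : ℝ) * (if ¬ Squarefree n then 1 else 0)) ≤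
      ∑ n ∈ rg d z A B, 1 / (n : ℝ) * (hh χ n).re := by
    refine sum_le_sum fun n hn => mul_le_mul_of_nonneg_left ?_ (by positivity)
    have hn' := mem_rg.mp hn
    exact L1_point d χ z k n hz Sb hSb hn'.2.2 (hn'.1.2.trans hB) (hgood n hn)
  have h3 : ∑ n ∈ rg d z A B, 1 / (n : ℝ) * ((if n.Prime ∧ n ∉ Sb then (6 / 10 : ℝ) else 0) -
      (2 ^ k : ℝ) * (if ∃ p ∈ Sb, p ∣ n then 1 else 0) - (2 ^ k : ℝ) * (if ¬ Squarefree n then 1 else 0)) =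
      6 / 10 * ∑ n ∈ (rg d z A B).filter (fun n => n.Prime ∧ n ∉ Sb), 1 / (n : ℝ) -
        (2 ^ k : ℝ) * ∑ n ∈ (rg d z A B).filter (fun n => ∃ p ∈ Sb, p ∣ n), 1 / (n : ℝ) -
        (2 ^ k : ℝ) * ∑ n ∈ (rg d z A B).filter (fun n => ¬ Squarefree n), 1 / (n : ℝ) := by
    rw [sum_filter, sum_filter, sum_filter, mul_sum, mul_sum, mul_sum, ← sum_sub_distrib, ← sum_sub_distrib]
    refine sum_congr rfl fun n _ => ?_
    split_ifs <;> ring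
  have h4 : ∑ n ∈ (rg d z A B).filter (fun n => ∃ p ∈ Sb, p ∣ n), 1 / (n : ℝ) ≤ M * ∑ p ∈ Sb, 1 / (p : ℝ) := by
    have h5 := big_prime d z A B M hM Sb hSb (fun n => ∃ p ∈ Sb, p ∣ n) (fun n _ h => h)
    have e : ∀ (D1 D2 : DecidablePred (fun n : ℕ => ∃ p ∈ Sb, p ∣ n)),
        ∑ n ∈ @Finset.filter ℕ _ D1 (rg d z A B), 1 / (n : ℝ) = ∑ n ∈ @Finset.filter ℕ _ D2 (rg d z A B), 1 / (n : ℝ) :=
      fun D1 D2 => by rw [Subsingleton.elim D1 D2]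
    exact (e _ _).le.trans h5
  have h5 := nonsqf d z A B hz M hM
  have h6 : ∑ p ∈ W, 1 / (p : ℝ) - ∑ p ∈ Sb, 1 / (p : ℝ) ≤
      ∑ n ∈ (rg d z A B).filter (fun n => n.Prime ∧ n ∉ Sb), 1 / (n : ℝ) := by
    have h7 : ∑ p ∈ W, 1 / (p : ℝ) ≤ ∑ p ∈ W \ Sb, 1 / (p : ℝ) + ∑ p ∈ Sb, 1 / (p : ℝ) := by
      rw [← sum_union sdiff_disjoint]
      refine sum_le_sum_of_subset_of_nonneg ?_ fun n _ _ => by positivity
      intro p hp
      rw [mem_union, mem_sdiff]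
      by_cases h : p ∈ Sb
      · exact Or.inr h
      · exact Or.inl ⟨hp, h⟩
    have h8 : ∑ p ∈ W \ Sb, 1 / (p : ℝ) ≤ ∑ n ∈ (rg d z A B).filter (fun n => n.Prime ∧ n ∉ Sb), 1 / (n : ℝ) := by
      refine sum_le_sum_of_subset_of_nonneg ?_ fun n _ _ => by positivity
      intro p hp
      rw [mem_sdiff] at hp
      rw [mem_filter]
      exact ⟨(hW p hp.1).2, (hW p hp.1).1, hp.2⟩
    linarith
  have h2k : (0 : ℝ) < 2 ^ k := by positivity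
  rw [h1]
  refine le_trans ?_ h2
  rw [h3]
  have h9 := mul_le_mul_of_nonneg_left h4 h2k.le
  have h10 := mul_le_mul_of_nonneg_left h5 h2k.le
  have h11 := mul_le_mul_of_nonneg_left h6 (by norm_num : (0 : ℝ) ≤ 6 / 10)
  linarith

end Pool.Agent.Lib.MP_42948a_nt.PO
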