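import Pool.Agent.Lib.MP_42948a_nt.PO.Defs
import Pool.Agent.Lib.MP_42948a_nt.PS.B1c

/-!
# Many primes in the window (job P1)

Lower bound for the sum of `1/p` over the primes of `(d^(3/5), d^(4/5)]` not dividing `d` (Mertens, few large prime divisors of `d`).
-/

namespace Pool.Agent.Lib.MP_42948a_nt.PO

open Finset Pool.Agent.Lib.MP_42948a_nt.OA Pool.Agent.Lib.MP_42948a_nt.AC Pool.Agent.Lib.MP_42948a_nt.TQ
  Pool.Agent.Lib.MP_42948a_nt.PS Pool.Agent.Lib.MP_42948a_nt.EK Pool.Agent.Lib.MP_42948a_nt.MV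

private theorem P1_d0 (C v ε : ℝ) (hv : 0 < v) (hε : 0 < ε) : ∃ d0 : ℕ, ∀ d : ℕ, d0 ≤ d →
    2 ≤ d ∧ 1000 ≤ (d : ℝ) ^ v ∧ 0 < Real.log d ∧ C / (v * Real.log d) ≤ ε := by
  refine ⟨⌈Real.exp (max (Real.log 1000 / v) (C / (v * ε)))⌉₊ + 2, fun d hd => ?_⟩
  have hd2 : ⌈Real.exp (max (Real.log 1000 / v) (C / (v * ε)))⌉₊ ≤ d := by omega
  have h1 : Real.exp (max (Real.log 1000 / v) (C / (v * ε))) ≤ (d : ℝ) :=
    (Nat.le_ceil _).trans (by exact_mod_cast hd2)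
  have hd0 : (0 : ℝ) < d := (Real.exp_pos _).trans_le h1
  have h2 : max (Real.log 1000 / v) (C / (v * ε)) ≤ Real.log d := (Real.le_log_iff_exp_le hd0).2 h1
  have h3 : Real.log 1000 / v ≤ Real.log d := (le_max_left _ _).trans h2
  have h4 : C / (v * ε) ≤ Real.log d := (le_max_right _ _).trans h2
  have hl2 : 0 < Real.log 1000 := Real.log_pos (by norm_num)
  have hL : 0 < Real.log d := (div_pos hl2 hv).trans_le h3
  refine ⟨by omega, ?_, hL, ?_⟩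
  · rw [Real.rpow_def_of_pos hd0]
    calc (1000 : ℝ) = Real.exp (Real.log 1000) := (Real.exp_log (by norm_num)).symm
      _ ≤ Real.exp (Real.log d * v) := Real.exp_le_exp.2 ((div_le_iff₀ hv).1 h3)
  · rw [div_le_iff₀ (mul_pos hv hL)]
    rw [div_le_iff₀ (mul_pos hv hε)] at h4
    linarith

private theorem P1_log : (285 / 1000 : ℝ) ≤ Real.log (4 / 3) := by
  rw [Real.le_log_iff_exp_le (by norm_num)]
  have h1 := Real.exp_bound' (x := (285 / 1000 : ℝ)) (by norm_num) (by norm_num) (n := 4) (by norm_num)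
  refine h1.trans ?_
  norm_num [Finset.sum_range_succ, Nat.factorial]

theorem prime_low : ∃ d0 : ℕ, ∀ d : ℕ, d0 ≤ d → 28 / 100 ≤ ∑ p ∈ PW d (3 / 5) (4 / 5), 1 / (p : ℝ) := by
  classical
  obtain ⟨C, hC0, hC⟩ := SV.mertA
  obtain ⟨d0, hd0⟩ := P1_d0 C (3 / 5) (1 / 1000) (by norm_num) (by norm_num)
  refine ⟨d0, fun d hd => ?_⟩
  obtain ⟨g1, g2, g3, g4⟩ := hd0 d hd
  have hd1 : (1 : ℝ) ≤ d := by exact_mod_cast (by omega : 1 ≤ d)
  have hdp : (0 : ℝ) < d := by linarith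
  obtain ⟨S, hS⟩ : ∃ S : Finset ℕ, S = SV.Pri ((d : ℝ) ^ (3 / 5 : ℝ)) ((d : ℝ) ^ (4 / 5 : ℝ)) := ⟨_, rfl⟩
  have hlv : Real.log ((d : ℝ) ^ (3 / 5 : ℝ)) = 3 / 5 * Real.log d := Real.log_rpow hdp _
  have hlu : Real.log ((d : ℝ) ^ (4 / 5 : ℝ)) = 4 / 5 * Real.log d := Real.log_rpow hdp _
  have h4 := hC ((d : ℝ) ^ (3 / 5 : ℝ)) ((d : ℝ) ^ (4 / 5 : ℝ)) (by linarith)
    (Real.rpow_le_rpow_of_exponent_le hd1 (by norm_num))
  rw [hlv, hlu, mul_div_mul_right _ _ g3.ne', ← hS] at h4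
  have h5 := (abs_le.1 h4).1
  have h6 : ((4 / 5 : ℝ) / (3 / 5)) = 4 / 3 := by norm_num
  rw [h6] at h5
  have h7 := P1_log
  have hmem : ∀ p, p ∈ S ↔ p.Prime ∧ (d : ℝ) ^ (3 / 5 : ℝ) < p ∧ (p : ℝ) ≤ (d : ℝ) ^ (4 / 5 : ℝ) := by
    intro p
    rw [hS]
    exact SV.mem_Pri (Real.rpow_nonneg hdp.le _)
  have h8 : S.filter (fun p => ¬ p ∣ d) ⊆ PW d (3 / 5) (4 / 5) := by
    intro p hp
    rw [mem_filter, hmem] at hp
    obtain ⟨⟨hp1, hp2, hp3⟩, hp4⟩ := hp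
    unfold PW
    rw [mem_filter, mem_Icc]
    exact ⟨⟨hp1.one_lt.le, Nat.le_floor hp3⟩, hp2, hp1, hp4⟩
  have h9 : ∑ p ∈ S.filter (fun p => p ∣ d), 1 / (p : ℝ) ≤ 2 / 1000 := by
    have e1 : S.filter (fun p => p ∣ d) ⊆ d.primeFactors.filter (fun p : ℕ => (d : ℝ) ^ (3 / 5 : ℝ) < p) := by
      intro p hp
      rw [mem_filter, hmem] at hp
      obtain ⟨⟨hp1, hp2, hp3⟩, hp4⟩ := hp
      rw [mem_filter, Nat.mem_primeFactors]
      exact ⟨⟨hp1, hp4, by omega⟩, hp2⟩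
    have e2 : ∀ p ∈ S.filter (fun p => p ∣ d), 1 / (p : ℝ) ≤ 1 / 1000 := by
      intro p hp
      rw [mem_filter, hmem] at hp
      exact one_div_le_one_div_of_le (by norm_num) (by linarith [hp.1.2.1])
    have e3 := Finset.sum_le_card_nsmul _ _ _ e2
    rw [nsmul_eq_mul] at e3
    have e4 : ((S.filter (fun p => p ∣ d)).card : ℝ) ≤
        ((d.primeFactors.filter (fun p : ℕ => (d : ℝ) ^ (3 / 5 : ℝ) < p)).card : ℝ) := by
      exact_mod_cast Finset.card_le_card e1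
    have e5 := few_prime_divisors (3 / 5) (by norm_num) d g1
    have e6 : (1 : ℝ) / (3 / 5) = 5 / 3 := by norm_num
    rw [e6] at e5
    linarith
  have h10 := Finset.sum_filter_add_sum_filter_not S (fun p => p ∣ d) (fun p : ℕ => 1 / (p : ℝ))
  have h11 : ∑ p ∈ S.filter (fun p => ¬ p ∣ d), 1 / (p : ℝ) ≤ ∑ p ∈ PW d (3 / 5) (4 / 5), 1 / (p : ℝ) :=
    sum_le_sum_of_subset_of_nonneg h8 fun p _ _ => by positivity
  linarith

end Pool.Agent.Lib.MP_42948a_nt.PO
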