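import Pool.Agent.Lib.MP_42948a_nt.PO.H1

/-!
# The upper bound of the convolution sum (job U1)

`(1/n) hh χ n = ∑_{(a,b)} (1/a)(1/b) χ a conj(χ b)` (`n = a b`), `reindex`, `hyper` (`H1.lean`) with `F a b = (1/a) χ a * conj ((1/b) χ b)`. First part: `∑_{a ∈ rg 0 y} (1/a) χ a * conj (∑_{b ∈ rg (A/a) (B/a)} (1/b) χ b)`, norm `≤ ∑ (1/a) E = E MS d z 0 y` (`‖χ a‖ ≤ 1`; for `a ∈ rg 0 y`, `1 ≤ a ≤ y`:
`A/a ≥ A/y ≥ L`, `B/a ≤ B ≤ D`). Second part: `∑_{b ∈ rg 0 (B/y)} conj ((1/b) χ b) * ∑_{a ∈ rg (max y (A/b)) (B/b)} (1/a) χ a`, norm `≤ E MS d z 0 (B/y)` (`max y (A/b) ≥ y ≥ L`, `B/b ≤ B ≤ D`).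
-/

namespace Pool.Agent.Lib.MP_42948a_nt.PO

open Finset Pool.Agent.Lib.MP_42948a_nt.OA Pool.Agent.Lib.MP_42948a_nt.AC Pool.Agent.Lib.MP_42948a_nt.TQ
  Pool.Agent.Lib.MP_42948a_nt.PS Pool.Agent.Lib.MP_42948a_nt.EK Pool.Agent.Lib.MP_42948a_nt.MV

private theorem U1_term (d : ℕ) [NeZero d] (χ : DirichletCharacter ℂ d) (n : ℕ) (hn : 0 < n) :
    ((1 / (n : ℝ) : ℝ) : ℂ) * hh χ n = ∑ x ∈ n.divisorsAntidiagonal,
      (((1 / (x.1 : ℝ) : ℝ) : ℂ) * χ (x.1 : ZMod d)) *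
        (starRingEnd ℂ) (((1 / (x.2 : ℝ) : ℝ) : ℂ) * χ (x.2 : ZMod d)) := by
  unfold hh
  rw [mul_sum]
  refine sum_congr rfl fun x hx => ?_
  obtain ⟨hx1, hx2⟩ := Nat.mem_divisorsAntidiagonal.mp hx
  have h1 : (n : ℝ) = (x.1 : ℝ) * (x.2 : ℝ) := by rw [← hx1]; push_cast; ring
  have ha : (x.1 : ℝ) ≠ 0 := by
    intro h0
    rw [h0, zero_mul] at h1
    have : (n : ℝ) ≠ 0 := by exact_mod_cast hn.ne'
    exact this h1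
  have hb : (x.2 : ℝ) ≠ 0 := by
    intro h0
    rw [h0, mul_zero] at h1
    have : (n : ℝ) ≠ 0 := by exact_mod_cast hn.ne'
    exact this h1
  have h2 : (1 / (n : ℝ)) = (1 / (x.1 : ℝ)) * (1 / (x.2 : ℝ)) := by
    rw [h1]; field_simp
  rw [h2, map_mul, Complex.conj_ofReal, Complex.ofReal_mul]
  ring

private theorem U1_chi (d : ℕ) [NeZero d] (χ : DirichletCharacter ℂ d) (n : ℕ) :
    ‖((1 / (n : ℝ) : ℝ) : ℂ) * χ (n : ZMod d)‖ ≤ 1 / (n : ℝ) := by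
  rw [norm_mul, Complex.norm_real, Real.norm_of_nonneg (by positivity)]
  have h1 : ‖χ (n : ZMod d)‖ ≤ 1 := DirichletCharacter.norm_le_one χ _
  have h2 : (0 : ℝ) ≤ 1 / (n : ℝ) := by positivity
  calc 1 / (n : ℝ) * ‖χ (n : ZMod d)‖ ≤ 1 / (n : ℝ) * 1 := mul_le_mul_of_nonneg_left h1 h2
    _ = 1 / (n : ℝ) := mul_one _

private theorem U1_mem {d z A B n : ℕ} (h : n ∈ rg d z A B) : A < n ∧ n ≤ B := by
  exact (mem_rg.mp h).1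

theorem upper_T (d : ℕ) [NeZero d] (χ : DirichletCharacter ℂ d) (z A B y L D : ℕ) (E : ℝ) (hE : 0 ≤ E) (hy : 1 ≤ y) (hyB : y ≤ B)
    (hyL : L ≤ y) (hAy : L ≤ A / y) (hBD : B ≤ D)
    (h : ∀ A' B' : ℕ, L ≤ A' → B' ≤ D → ‖∑ n ∈ rg d z A' B', ((1 / (n : ℝ) : ℝ) : ℂ) * χ (n : ZMod d)‖ ≤ E) :
    ‖∑ n ∈ rg d z A B, ((1 / (n : ℝ) : ℝ) : ℂ) * hh χ n‖ ≤ E * (MS d z 0 y + MS d z 0 (B / y)) := by
  classical
  set F : ℕ → ℕ → ℂ := fun a b => (((1 / (a : ℝ) : ℝ) : ℂ) * χ (a : ZMod d)) *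
        (starRingEnd ℂ) (((1 / (b : ℝ) : ℝ) : ℂ) * χ (b : ZMod d)) with hF
  have e1 : ∑ n ∈ rg d z A B, ((1 / (n : ℝ) : ℝ) : ℂ) * hh χ n =
      ∑ n ∈ rg d z A B, ∑ x ∈ n.divisorsAntidiagonal, F x.1 x.2 := by
    refine sum_congr rfl fun n hn => ?_
    exact U1_term d χ n (lt_of_le_of_lt (Nat.zero_le _) (U1_mem hn).1)
  rw [e1, reindex, hyper d z A B y hy hyB F]
  refine (norm_add_le _ _).trans ?_
  rw [mul_add]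
  refine add_le_add ?_ ?_
  · unfold MS
    rw [mul_sum]
    refine (norm_sum_le _ _).trans (sum_le_sum fun a ha => ?_)
    have ha2 := U1_mem ha
    have e2 : ∑ b ∈ rg d z (A / a) (B / a), F a b = (((1 / (a : ℝ) : ℝ) : ℂ) * χ (a : ZMod d)) *
        (starRingEnd ℂ) (∑ b ∈ rg d z (A / a) (B / a), ((1 / (b : ℝ) : ℝ) : ℂ) * χ (b : ZMod d)) := by
      rw [map_sum, mul_sum]
    rw [e2, norm_mul, RCLike.norm_conj]
    have h1 : ‖∑ b ∈ rg d z (A / a) (B / a), ((1 / (b : ℝ) : ℝ) : ℂ) * χ (b : ZMod d)‖ ≤ E :=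
      h _ _ (hAy.trans (Nat.div_le_div_left ha2.2 ha2.1)) ((Nat.div_le_self _ _).trans hBD)
    calc ‖((1 / (a : ℝ) : ℝ) : ℂ) * χ (a : ZMod d)‖ * ‖∑ b ∈ rg d z (A / a) (B / a), ((1 / (b : ℝ) : ℝ) : ℂ) * χ (b : ZMod d)‖
        ≤ (1 / (a : ℝ)) * E := mul_le_mul (U1_chi d χ a) h1 (norm_nonneg _) (by positivity)
      _ = E * (1 / (a : ℝ)) := mul_comm _ _
  · unfold MS
    rw [mul_sum]
    refine (norm_sum_le _ _).trans (sum_le_sum fun b hb => ?_)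
    have e2 : ∑ a ∈ rg d z (max y (A / b)) (B / b), F a b =
        (∑ a ∈ rg d z (max y (A / b)) (B / b), ((1 / (a : ℝ) : ℝ) : ℂ) * χ (a : ZMod d)) *
          (starRingEnd ℂ) (((1 / (b : ℝ) : ℝ) : ℂ) * χ (b : ZMod d)) := by
      rw [sum_mul]
    rw [e2, norm_mul, RCLike.norm_conj]
    have h1 : ‖∑ a ∈ rg d z (max y (A / b)) (B / b), ((1 / (a : ℝ) : ℝ) : ℂ) * χ (a : ZMod d)‖ ≤ E :=
      h _ _ (hyL.trans (le_max_left _ _)) ((Nat.div_le_self _ _).trans hBD)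
    exact mul_le_mul h1 (U1_chi d χ b) (norm_nonneg _) hE

end Pool.Agent.Lib.MP_42948a_nt.PO
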