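import Pool.Agent.Lib.MP_42948a_nt.PO.N1
import Pool.Agent.Lib.MP_42948a_nt.PO.I1
import Pool.Agent.Lib.MP_42948a_nt.PO.U1
import Pool.Agent.Lib.MP_42948a_nt.PO.L1
import Pool.Agent.Lib.MP_42948a_nt.PO.P1
import Pool.Agent.Lib.MP_42948a_nt.PO.G1
import Pool.Agent.Lib.MP_42948a_nt.MV.FQ
import Pool.Agent.Lib.MP_42948a_nt.MV.S3

/-!
# A character of bounded order does not have positive real part at nearly all primes
-/

namespace Pool.Agent.Lib.MP_42948a_nt.PO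

open Finset Pool.Agent.Lib.MP_42948a_nt.OA Pool.Agent.Lib.MP_42948a_nt.AC Pool.Agent.Lib.MP_42948a_nt.TQ
  Pool.Agent.Lib.MP_42948a_nt.PS Pool.Agent.Lib.MP_42948a_nt.EK Pool.Agent.Lib.MP_42948a_nt.MV

/-- the final numerical step -/
private theorem M_num (C1 c τ ε E MS1 MS2 T Tr W Sb M Z z k σ : ℝ) (hC1 : 1 ≤ C1) (hc : 0 < c) (hτ : τ ≤ 1 / (1600 * C1) * c ^ 2)
    (hε : ε = c / (400 * C1)) (hE : E = 4 * τ / c + ε) (hE0 : 0 ≤ E) (h1 : MS1 ≤ C1 * (2 / c)) (h2 : MS2 ≤ C1 * (2 / c))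
    (hT : T ≤ E * (MS1 + MS2)) (hTr : Tr ≤ T) (hM : 0 < M) (hk : 0 < k) (hZ : Z = 400 * (k * M)) (hz : Z ≤ z)
    (hσ : σ = 1 / (100 * (1 + k * M))) (hW : 28 / 100 ≤ W) (hSb : Sb ≤ σ)
    (hL : 6 / 10 * (W - Sb) - k * (M * Sb) - k * (2 * M / z) ≤ Tr) : False := by
  have hC0 : 0 < C1 := by linarith
  have hkM : 0 < k * M := mul_pos hk hM
  have hZ0 : 0 < Z := by rw [hZ]; positivity
  have hz0 : 0 < z := by linarith
  have e1 : E ≤ c / (200 * C1) := by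
    have h3 : 4 * τ / c ≤ c / (400 * C1) := by
      rw [div_le_iff₀ hc]
      refine (mul_le_mul_of_nonneg_left hτ (by norm_num : (0 : ℝ) ≤ 4)).trans (le_of_eq ?_)
      field_simp
      norm_num
    have h4 : c / (400 * C1) + c / (400 * C1) = c / (200 * C1) := by
      field_simp
      norm_num
    rw [hE, hε]
    linarith
  have e2 : T ≤ 2 / 100 := by
    have h3 : E * (MS1 + MS2) ≤ E * (C1 * (2 / c) + C1 * (2 / c)) := mul_le_mul_of_nonneg_left (by linarith) hE0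
    have h4 : E * (C1 * (2 / c) + C1 * (2 / c)) ≤ c / (200 * C1) * (C1 * (2 / c) + C1 * (2 / c)) :=
      mul_le_mul_of_nonneg_right e1 (by positivity)
    have h5 : c / (200 * C1) * (C1 * (2 / c) + C1 * (2 / c)) = 2 / 100 := by
      field_simp
      norm_num
    linarith
  have e3 : k * (2 * M / z) ≤ 1 / 200 := by
    rw [← mul_div_assoc, div_le_iff₀ hz0]
    have h3 : k * (2 * M) = 2 * (k * M) := by ring
    rw [h3]
    linarith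
  have e4 : 6 / 10 * Sb + k * (M * Sb) ≤ 1 / 100 := by
    have h3 : (1 + k * M) * Sb ≤ (1 + k * M) * σ := mul_le_mul_of_nonneg_left hSb (by positivity)
    have h4 : (1 + k * M) * σ = 1 / 100 := by
      rw [hσ]
      field_simp
    have hσ0 : 0 < σ := by rw [hσ]; positivity
    by_cases h5 : 0 ≤ Sb
    · nlinarith
    · push Not at h5
      nlinarith
  linarith

open Classical in
/-- the form with one constant `c` -/
theorem pos_one (m : ℕ) (hm : 1 ≤ m) : ∃ c : ℝ, 0 < c ∧ ∃ σ : ℝ, 0 < σ ∧ ∃ d0 : ℕ, ∀ d : ℕ, d0 ≤ d → ∀ [NeZero d],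
    ∀ χ : DirichletCharacter ℂ d, χ ≠ 1 → χ ^ m = 1 →
      σ ≤ ∑ p ∈ (PW d c 1).filter (fun p : ℕ => (χ (p : ZMod d)).re < 3 / 10), 1 / (p : ℝ) := by
  obtain ⟨C1, hC1, hmass⟩ := mass
  obtain ⟨C, hC, hfund⟩ := fund_quant
  obtain ⟨c, hc, hc1, τ, hτ, hτ1, hτc, hKc⟩ := choice2 C (1 / (1600 * C1)) hC (by positivity)
  obtain ⟨K, hK1, hK⟩ := hfund τ hτ hτ1
  have hKc2 : ((K : ℝ) + 2) * c ≤ 1 / 100 := (mul_le_mul_of_nonneg_right (by linarith) hc.le).trans hKc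
  obtain ⟨ε, hε⟩ : ∃ ε : ℝ, ε = c / (400 * C1) := ⟨_, rfl⟩
  have hε0 : 0 < ε := by rw [hε]; positivity
  obtain ⟨d1, hd1⟩ := inner_sum m hm K c τ hc hc1 hτ hτ1 hKc2 ε hε0
  obtain ⟨k1, d2, hd2⟩ := geo2 c hc hc1 0
  obtain ⟨M, hM0, hM⟩ := rough_crude k1
  obtain ⟨Z, hZ⟩ : ∃ Z : ℝ, Z = 400 * ((2 ^ k1 : ℝ) * M) := ⟨_, rfl⟩
  obtain ⟨k2, d3, hd3⟩ := geo2 c hc hc1 Z
  obtain ⟨d4, hd4⟩ := prime_low
  obtain ⟨σ, hσ⟩ : ∃ σ : ℝ, σ = 1 / (100 * (1 + (2 ^ k1 : ℝ) * M)) := ⟨_, rfl⟩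
  refine ⟨c, hc, σ, by rw [hσ]; positivity, d1 + d2 + d3 + d4 + 1, ?_⟩
  intro d hd _ χ hχ hχm
  by_contra hcon
  rw [not_le] at hcon
  have hdn : 1 ≤ d := by omega
  have hdr : (1 : ℝ) ≤ d := by exact_mod_cast hdn
  obtain ⟨hz2, -, hzd, hdz, hlog, hy1, hy2, hL1, hL2, hBd⟩ := hd2 d (by omega)
  obtain ⟨-, hzZ, -, -, -, -, -, -, -, -⟩ := hd3 d (by omega)
  obtain ⟨u, l, hF⟩ := hK (zz c d) hz2
  have hin := hd1 d (by omega) u l hF χ hχ hχm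
  obtain ⟨A, hA⟩ : ∃ A : ℕ, A = ⌊(d : ℝ) ^ (3 / 5 : ℝ)⌋₊ := ⟨_, rfl⟩
  obtain ⟨B, hB⟩ : ∃ B : ℕ, B = ⌊(d : ℝ) ^ (4 / 5 : ℝ)⌋₊ := ⟨_, rfl⟩
  obtain ⟨y, hy⟩ : ∃ y : ℕ, y = ⌊(d : ℝ) ^ (3 / 10 : ℝ)⌋₊ := ⟨_, rfl⟩
  rw [← hy, ← hA] at hL2
  rw [← hy] at hL1 hy1 hy2
  rw [← hB] at hy2 hBd
  have hE0 : 0 ≤ 4 * τ / c + ε := by positivity
  have hU := upper_T d χ (zz c d) A B y ⌈(d : ℝ) ^ (29 / 100 : ℝ)⌉₊ d (4 * τ / c + ε) hE0 hy1 hy2 hL1 hL2 hBd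
    (fun A' B' hA' hB' => hin A' B' ((Nat.le_ceil _).trans (by exact_mod_cast hA')) hB')
  have hlz : 0 < Real.log (zz c d) := Real.log_pos (by exact_mod_cast (by omega : 1 < zz c d))
  have hmm : ∀ N : ℕ, N ≤ d → MS d (zz c d) 0 N ≤ C1 * (2 / c) := by
    intro N hN
    refine (hmass d (zz c d) N d hz2 hzd hN).trans (mul_le_mul_of_nonneg_left ?_ (by linarith))
    rw [div_le_iff₀ hlz]
    exact hlog
  have hMq : ∀ q : ℕ, 1 ≤ q → MS d (zz c d) (A / q) (B / q) ≤ M := fun q _ =>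
    (MS_mono (Nat.zero_le _) ((Nat.div_le_self _ _).trans (hBd.trans hdz))).trans (hM (zz c d) hz2 d)
  have hPW : ∀ {a b : ℝ} {p : ℕ}, p ∈ PW d a b ↔ (1 ≤ p ∧ p ≤ ⌊(d : ℝ) ^ b⌋₊) ∧ (d : ℝ) ^ a < p ∧ p.Prime ∧ ¬ p ∣ d := by
    intro a b p
    unfold PW
    rw [mem_filter, mem_Icc]
  have hL := lower_T d χ (zz c d) A B k1 hz2 (hBd.trans hdz) M hMq
    ((PW d c 1).filter (fun p : ℕ => (χ (p : ZMod d)).re < 3 / 10))
    (fun p hp => (hPW.mp (mem_filter.mp hp).1).2.2.1)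
    (by
      intro n hn p hp hpn
      rw [mem_rg] at hn
      have hpd : ¬ p ∣ d := by
        intro h
        have h1 : p ∣ Nat.gcd n d := Nat.dvd_gcd hpn h
        rw [hn.2.1] at h1
        exact absurd (Nat.dvd_one.mp h1) hp.one_lt.ne'
      have hzp : zz c d < p := hn.2.2.2 p hp hpn
      have hpB : p ≤ B := (Nat.le_of_dvd hn.2.2.1 hpn).trans hn.1.2
      have hzp' : (d : ℝ) ^ c < p := by
        unfold zz at hzp
        exact (Nat.floor_lt (Real.rpow_nonneg (Nat.cast_nonneg d) _)).mp hzp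
      rcases le_or_gt (3 / 10) (χ (p : ZMod d)).re with h | h
      · exact Or.inr h
      · refine Or.inl (mem_filter.mpr ⟨hPW.mpr ⟨⟨hp.one_le, ?_⟩, hzp', hp, hpd⟩, h⟩)
        rw [Real.rpow_one, Nat.floor_natCast]
        exact hpB.trans hBd)
    (PW d (3 / 5) (4 / 5))
    (by
      intro p hp
      obtain ⟨⟨h1, h2⟩, h3, h4, h5⟩ := hPW.mp hp
      refine ⟨h4, mem_rg.mpr ⟨⟨?_, ?_⟩, (Nat.Prime.coprime_iff_not_dvd h4).mpr h5, h4.pos, ?_⟩⟩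
      · rw [hA]
        exact (Nat.floor_lt (Real.rpow_nonneg (Nat.cast_nonneg d) _)).mpr h3
      · rw [hB]
        exact h2
      · intro q hq hqp
        rw [(Nat.prime_dvd_prime_iff_eq hq h4).mp hqp]
        unfold zz
        refine (Nat.floor_lt (Real.rpow_nonneg (Nat.cast_nonneg d) _)).mpr (lt_of_le_of_lt ?_ h3)
        exact Real.rpow_le_rpow_of_exponent_le hdr (by linarith))
  have hW := hd4 d (by omega)
  exact M_num C1 c τ ε (4 * τ / c + ε) (MS d (zz c d) 0 y) (MS d (zz c d) 0 (B / y))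
    ‖∑ n ∈ rg d (zz c d) A B, ((1 / (n : ℝ) : ℝ) : ℂ) * hh χ n‖
    (∑ n ∈ rg d (zz c d) A B, ((1 / (n : ℝ) : ℝ) : ℂ) * hh χ n).re
    (∑ p ∈ PW d (3 / 5) (4 / 5), 1 / (p : ℝ))
    (∑ p ∈ (PW d c 1).filter (fun p : ℕ => (χ (p : ZMod d)).re < 3 / 10), 1 / (p : ℝ)) M Z (zz c d) (2 ^ k1) σ
    hC1 hc hτc hε rfl hE0 (hmm y (hy2.trans hBd)) (hmm (B / y) ((Nat.div_le_self _ _).trans hBd)) hU
    (Complex.re_le_norm _) hM0 (by positivity) hZ hzZ hσ hW hcon.le hL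

end Pool.Agent.Lib.MP_42948a_nt.PO
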