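import Pool.Agent.Lib.MP_42948a_nt.PO.Defs

/-!
# The choice of the parameters (job N1)

ADAPT `FR/N1.lean` (theorem `choice`, complete proof there). Take `τ = β c^2` with `c` small.
-/

namespace Pool.Agent.Lib.MP_42948a_nt.PO

open Finset Pool.Agent.Lib.MP_42948a_nt.OA Pool.Agent.Lib.MP_42948a_nt.AC Pool.Agent.Lib.MP_42948a_nt.TQ
  Pool.Agent.Lib.MP_42948a_nt.PS Pool.Agent.Lib.MP_42948a_nt.EK Pool.Agent.Lib.MP_42948a_nt.MV

theorem choice2 (C β : ℝ) (hC : 0 < C) (hβ : 0 < β) : ∃ c : ℝ, 0 < c ∧ c ≤ 1 / 1000 ∧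
    ∃ τ : ℝ, 0 < τ ∧ τ ≤ 1 ∧ τ ≤ β * c ^ 2 ∧ (C * (1 + Real.log (1 / τ)) + 2) * c ≤ 1 / 100 := by
  have _ := hC
  have t0 : Filter.Tendsto (fun c : ℝ => c) (nhdsWithin 0 (Set.Ioi 0)) (nhds 0) :=
    Filter.tendsto_id.mono_right nhdsWithin_le_nhds
  have t1 : Filter.Tendsto (fun c : ℝ => Real.log c * c) (nhdsWithin 0 (Set.Ioi 0)) (nhds 0) := by
    have h := tendsto_log_mul_rpow_nhdsGT_zero (zero_lt_one : (0 : ℝ) < 1)
    simpa only [Real.rpow_one] using h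
  have t2 : Filter.Tendsto (fun c : ℝ => β * c ^ 2) (nhdsWithin 0 (Set.Ioi 0)) (nhds 0) := by
    have h := (t0.pow 2).const_mul β
    have e : β * (0 : ℝ) ^ 2 = 0 := by ring
    rw [e] at h
    exact h
  have t3 : Filter.Tendsto (fun c : ℝ => (C * (1 - Real.log β) + 2) * c -
      2 * C * (Real.log c * c)) (nhdsWithin 0 (Set.Ioi 0)) (nhds 0) := by
    have h := (t0.const_mul (C * (1 - Real.log β) + 2)).sub (t1.const_mul (2 * C))
    have e : (C * (1 - Real.log β) + 2) * 0 - 2 * C * 0 = 0 := by ring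
    rw [e] at h
    exact h
  have e0 : ∀ᶠ c : ℝ in nhdsWithin 0 (Set.Ioi 0), c < 1 / 1000 :=
    t0.eventually (gt_mem_nhds (by norm_num))
  have e2 : ∀ᶠ c : ℝ in nhdsWithin 0 (Set.Ioi 0), β * c ^ 2 < 1 :=
    t2.eventually (gt_mem_nhds (by norm_num))
  have e3 : ∀ᶠ c : ℝ in nhdsWithin 0 (Set.Ioi 0), (C * (1 - Real.log β) + 2) * c -
      2 * C * (Real.log c * c) < 1 / 100 := t3.eventually (gt_mem_nhds (by norm_num))
  have e4 : ∀ᶠ c : ℝ in nhdsWithin 0 (Set.Ioi 0), 0 < c := self_mem_nhdsWithin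
  obtain ⟨c, h0, h2, h3, h4⟩ := (e0.and (e2.and (e3.and e4))).exists
  refine ⟨c, h4, h0.le, β * c ^ 2, by positivity, h2.le, le_rfl, ?_⟩
  have hlog : Real.log (1 / (β * c ^ 2)) = -Real.log β - 2 * Real.log c := by
    rw [one_div, Real.log_inv, Real.log_mul (by positivity) (by positivity), Real.log_pow]
    push_cast
    ring
  rw [hlog]
  nlinarith

end Pool.Agent.Lib.MP_42948a_nt.PO
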