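import Pool.Agent.Lib.MP_42948a_nt.PO.Defs

/-!
# The values of the convolution at squarefree numbers (job Q1)

`hh χ n = (f * g) n` with the arithmetic functions `f = toArithmeticFunction (χ ·)`, `g = toArithmeticFunction (fun n => conj (χ n))` (or define `ArithmeticFunction ℂ` by `⟨fun n => if n = 0 then 0 else χ n, _⟩`); both are multiplicative
(`DirichletCharacter.isMultiplicative_toArithmeticFunction`, `IsMultiplicative.iff_ne_zero`) and `ArithmeticFunction.IsMultiplicative.prodPrimeFactors_add_of_squarefree`: `(f * g) n = ∏ p ∈ n.primeFactors, (f p + g p)`, `χ p + conj (χ p) = 2 Re χ p` (`Complex.add_conj`).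
(Or: induction `Nat.recOnPosPrimePosCoprime`/`induction_on_primes`, multiplicativity of `hh` at coprime numbers.)
-/

namespace Pool.Agent.Lib.MP_42948a_nt.PO

open Finset Pool.Agent.Lib.MP_42948a_nt.OA Pool.Agent.Lib.MP_42948a_nt.AC Pool.Agent.Lib.MP_42948a_nt.TQ
  Pool.Agent.Lib.MP_42948a_nt.PS Pool.Agent.Lib.MP_42948a_nt.EK Pool.Agent.Lib.MP_42948a_nt.MV

private noncomputable def Q1_af (h : ℕ → ℂ) : ArithmeticFunction ℂ :=
  ⟨fun n => if n = 0 then 0 else h n, if_pos rfl⟩

private theorem Q1_af_apply (h : ℕ → ℂ) (n : ℕ) : Q1_af h n = if n = 0 then 0 else h n := rfl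

private theorem Q1_af_mul (h : ℕ → ℂ) (h1 : h 1 = 1) (hm : ∀ m n : ℕ, h (m * n) = h m * h n) :
    (Q1_af h).IsMultiplicative := by
  rw [ArithmeticFunction.IsMultiplicative.iff_ne_zero]
  refine ⟨?_, ?_⟩
  · rw [Q1_af_apply, if_neg one_ne_zero, h1]
  · intro m n hm0 hn0 _
    rw [Q1_af_apply, Q1_af_apply, Q1_af_apply, if_neg hm0, if_neg hn0, if_neg (mul_ne_zero hm0 hn0), hm]

theorem hh_sqf (d : ℕ) (χ : DirichletCharacter ℂ d) (n : ℕ) (hn : Squarefree n) :
    hh χ n = ((∏ p ∈ n.primeFactors, 2 * (χ (p : ZMod d)).re : ℝ) : ℂ) := by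
  have hf : (Q1_af (fun m => χ (m : ZMod d))).IsMultiplicative := by
    refine Q1_af_mul _ ?_ ?_
    · rw [Nat.cast_one, map_one]
    · intro m k
      rw [Nat.cast_mul, map_mul]
  have hg : (Q1_af (fun m => (starRingEnd ℂ) (χ (m : ZMod d)))).IsMultiplicative := by
    refine Q1_af_mul _ ?_ ?_
    · rw [Nat.cast_one, map_one, map_one]
    · intro m k
      rw [Nat.cast_mul, map_mul, map_mul]
  have h1 := ArithmeticFunction.IsMultiplicative.prodPrimeFactors_add_of_squarefree hf hg hn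
  have h2 : hh χ n = (Q1_af (fun m => χ (m : ZMod d)) * Q1_af (fun m => (starRingEnd ℂ) (χ (m : ZMod d)))) n := by
    rw [ArithmeticFunction.mul_apply]
    unfold hh
    refine Finset.sum_congr rfl (fun x hx => ?_)
    have hx1 := Nat.mem_divisorsAntidiagonal.1 hx
    have hx0 : x.1 ≠ 0 := by
      intro h0
      apply hx1.2
      rw [← hx1.1, h0, zero_mul]
    have hx2 : x.2 ≠ 0 := by
      intro h0
      apply hx1.2
      rw [← hx1.1, h0, mul_zero]
    rw [Q1_af_apply, Q1_af_apply, if_neg hx0, if_neg hx2]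
  rw [h2, ← h1, ArithmeticFunction.prodPrimeFactors_apply hn.ne_zero, Complex.ofReal_prod]
  refine Finset.prod_congr rfl (fun p hp => ?_)
  have hp0 : p ≠ 0 := (Nat.prime_of_mem_primeFactors hp).ne_zero
  rw [ArithmeticFunction.add_apply, Q1_af_apply, Q1_af_apply, if_neg hp0, if_neg hp0, Complex.add_conj]

end Pool.Agent.Lib.MP_42948a_nt.PO
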