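import Pool.Agent.Lib.MP_42948a_nt.PO.M
import Pool.Agent.Lib.MP_42948a_nt.TP.Defs

/-!
# The block `Pos`
-/

namespace Pool.Agent.Lib.MP_42948a_nt.PO

open Finset

theorem pos : TP.Pos := by
  classical
  intro m hm
  obtain ⟨c, hc, σ, hσ, d0, h⟩ := pos_one m hm
  refine ⟨c, hc, fun s _ hsc => ⟨σ, hσ, d0, fun d hd _ χ hχ hχm => (h d hd χ hχ hχm).trans ?_⟩⟩
  refine sum_le_sum_of_subset_of_nonneg ?_ fun p _ _ => by positivity
  intro p hp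
  rw [mem_filter] at hp ⊢
  refine ⟨?_, hp.2⟩
  have hp1 := hp.1
  unfold EK.PW at hp1
  rw [mem_filter, mem_Icc] at hp1
  obtain ⟨⟨-, h2⟩, h3, h4, h5⟩ := hp1
  rw [TF.mem_PW]
  refine ⟨h4, ?_, h2, h5⟩
  have hd1 : (1 : ℝ) ≤ (d : ℝ) := by exact_mod_cast (NeZero.one_le : 1 ≤ d)
  exact (Nat.floor_lt (by positivity)).2 (lt_of_le_of_lt (Real.rpow_le_rpow_of_exponent_le hd1 hsc) h3)

end Pool.Agent.Lib.MP_42948a_nt.PO
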